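import Pool.Agent.NUP1.Defs
import Pool.Agent.NUP.MF.Dens

/-!
# The ends `(e, -e)`, `0 ≤ e ≤ l / 2`, as a parameter of the functional side
-/

set_option autoImplicit false

noncomputable section

namespace ISE

/-- the position of the ends -/
class En : Type where
  /-- the position -/
  e : ℝ
  h0 : 0 ≤ e
  h1 : e ≤ NUP1.l / 2

/-- the position as a complex number -/
abbrev ee [En] : ℂ := ((En.e : ℝ) : ℂ)

theorem ee_re [En] : (ee).re = En.e := Complex.ofReal_re _

theorem ee_im [En] : (ee).im = 0 := Complex.ofReal_im _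

theorem e_le [En] : En.e ≤ NUMF.l / 2 := En.h1

theorem e_abs [En] : |(ee).re| ≤ NUMF.l / 2 := by
  rw [ee_re, abs_of_nonneg En.h0]
  exact En.h1

/-- the target value `e = l / 2` -/
@[reducible] def enH (h : 0 ≤ NUP1.l) : En := ⟨NUP1.l / 2, by linarith, le_rfl⟩

/-- the landed value `e = 0` -/
@[reducible] def en0 (h : 0 ≤ NUP1.l) : En := ⟨0, le_rfl, by linarith⟩

end ISE

end
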