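import Pool.Agent.PB.LogZ
import Pool.Agent.PB.RowsH

/-!
# ISE: the cutoff at the rows `l / 2`, `-l / 2`

One factor `psi (u + l / 2)` is larger than `1` on `re u = l`, but the PAIR is again a product of two good factors:
`psiK κ β z = (cos (2 β z + β l) - κ) / (cos (2 β z + β l) + κ)`,

* **`psi_pair`** : `psi β (u - l/2) * psi β (u + l/2) = psiK 1 β u * psiK (cos (2 β l)) β u`, exact;
* `cut_mainK` : lists of pairs `(κ, x)`; `phi_LH`: the rows in two places;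
* `LZOkH`, `hasDerivAt_XXH`, `LZX_bdH`, `LogD_XXH`, `phi_neH`, `cut_facH`, `cut_massH`.
-/

set_option autoImplicit false
set_option linter.unusedSectionVars false

noncomputable section

open Complex MeasureTheory Set Filter Topology

namespace ISLH

open NUP1 (psi phi Adm kap cl)
open PBLZ (SX SX_nonneg SX_cons SX_pos SX_ge C0 C0_pos cutL cutI u_re u_im strip_open LZX)

variable {β s κ κm : ℝ} {z u : ℂ} {L : List (ℝ × ℂ)}

/-! ### one factor -/

/-- the factor with a general value -/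
def psiK (κ β : ℝ) (z : ℂ) : ℂ :=
  (Complex.cos (2 * β * z + β * NUP1.l) - κ) / (Complex.cos (2 * β * z + β * NUP1.l) + κ)

theorem cos_cl (β : ℝ) : Complex.cos ((β : ℂ) * NUP1.l) = ((cl β : ℝ) : ℂ) := by
  unfold cl
  push_cast
  rfl

theorem psi_eq (β : ℝ) : psi β = psiK (cl β) β := by
  funext z
  unfold psi psiK
  rw [cos_cl]

theorem denK_re (h : Adm β s) (hz : |z.re + NUP1.l / 2| ≤ s) :
    kap β s * Real.cosh (2 * β * z.im) + κ ≤ (Complex.cos (2 * β * z + β * NUP1.l) + (κ : ℂ)).re := by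
  rw [add_re, ofReal_re]
  linarith [NUP1.re_cos_ge h hz]

theorem denK_ne (h : Adm β s) (hz : |z.re + NUP1.l / 2| ≤ s) (h0 : 0 < κ) :
    Complex.cos (2 * β * z + β * NUP1.l) + (κ : ℂ) ≠ 0 := by
  intro h1
  have := denK_re (κ := κ) h hz
  rw [h1, zero_re] at this
  have h2 := mul_pos h.kap_pos (Real.cosh_pos (2 * β * z.im))
  linarith

/-- `‖psiK‖ ≤ exp (-(κ k / 2) exp (-2 β |t|))` -/
theorem norm_psiK (h : Adm β s) (hz : |z.re + NUP1.l / 2| ≤ s) (h0 : 0 < κ) (h1 : κ ≤ 1) :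
    ‖psiK κ β z‖ ≤ Real.exp (-(κ * kap β s / 2 * Real.exp (-(2 * β) * |z.im|))) := by
  have hd := denK_ne h hz h0
  have hk := h.kap_pos
  obtain ⟨C, hC⟩ : ∃ C, C = Complex.cos (2 * β * z + β * NUP1.l) := ⟨_, rfl⟩
  have hre := NUP1.re_cos_ge h hz
  rw [← hC] at hre hd
  have hch := Real.one_le_cosh (2 * β * z.im)
  have hch0 := Real.cosh_pos (2 * β * z.im)
  have hCn : ‖C‖ ≤ Real.cosh (2 * β * z.im) := by
    have := NUP1.norm_cos_le (2 * β * z + β * NUP1.l)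
    rwa [NUP1.im_arg, ← hC] at this
  have hid : ‖C - (κ : ℝ)‖ ^ 2 = ‖C + (κ : ℝ)‖ ^ 2 - 4 * κ * C.re := by
    rw [← Complex.normSq_eq_norm_sq, ← Complex.normSq_eq_norm_sq, Complex.normSq_apply, Complex.normSq_apply]
    simp only [sub_re, add_re, sub_im, add_im, ofReal_re, ofReal_im]
    ring
  have hden0 : 0 < ‖C + (κ : ℝ)‖ := by
    rw [norm_pos_iff]
    exact hd
  have hden2 : ‖C + (κ : ℝ)‖ ≤ 2 * Real.cosh (2 * β * z.im) := by
    refine (norm_add_le _ _).trans ?_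
    rw [Complex.norm_real, Real.norm_of_nonneg h0.le]
    linarith
  have hpsi : ‖psiK κ β z‖ ^ 2 = 1 - 4 * κ * C.re / ‖C + (κ : ℝ)‖ ^ 2 := by
    unfold psiK
    rw [← hC, norm_div, div_pow, hid, sub_div, div_self (by positivity)]
  have hge : κ * kap β s * Real.exp (-(2 * β) * |z.im|) ≤ 4 * κ * C.re / ‖C + (κ : ℝ)‖ ^ 2 := by
    rw [le_div_iff₀ (by positivity)]
    have h1 : ‖C + (κ : ℝ)‖ ^ 2 ≤ 4 * Real.cosh (2 * β * z.im) ^ 2 := by nlinarith
    have h2 : Real.exp (-(2 * β) * |z.im|) * Real.cosh (2 * β * z.im) ≤ 1 := by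
      have := NUP1.cosh_le_exp (2 * β * z.im)
      rw [NUP1.abs_arg h] at this
      calc _ ≤ Real.exp (-(2 * β) * |z.im|) * Real.exp (2 * β * |z.im|) :=
            mul_le_mul_of_nonneg_left this (Real.exp_pos _).le
        _ = 1 := by rw [← Real.exp_add]; simp
    have he := Real.exp_pos (-(2 * β) * |z.im|)
    calc _ ≤ κ * kap β s * Real.exp (-(2 * β) * |z.im|) * (4 * Real.cosh (2 * β * z.im) ^ 2) :=
          mul_le_mul_of_nonneg_left h1 (by positivity)
      _ = 4 * κ * (kap β s * Real.cosh (2 * β * z.im)) *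
          (Real.exp (-(2 * β) * |z.im|) * Real.cosh (2 * β * z.im)) := by ring
      _ ≤ 4 * κ * (kap β s * Real.cosh (2 * β * z.im)) * 1 :=
          mul_le_mul_of_nonneg_left h2 (by positivity)
      _ ≤ 4 * κ * C.re := by
          rw [mul_one]; exact mul_le_mul_of_nonneg_left hre (by positivity)
  have hsq : ‖psiK κ β z‖ ^ 2 ≤ Real.exp (-(κ * kap β s / 2 * Real.exp (-(2 * β) * |z.im|))) ^ 2 := by
    rw [hpsi, ← Real.exp_nat_mul]
    have h1 := Real.one_sub_le_exp_neg (κ * kap β s * Real.exp (-(2 * β) * |z.im|))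
    have h2 : ((2 : ℕ) : ℝ) * -(κ * kap β s / 2 * Real.exp (-(2 * β) * |z.im|)) =
        -(κ * kap β s * Real.exp (-(2 * β) * |z.im|)) := by push_cast; ring
    rw [h2]
    linarith
  exact le_of_sq_le_sq hsq (Real.exp_pos _).le

/-- derivative -/
theorem hasDerivAt_psiK (h : Adm β s) (hz : |z.re + NUP1.l / 2| ≤ s) (h0 : 0 < κ) : HasDerivAt (psiK κ β)
    (-(4 * β * κ * Complex.sin (2 * β * z + β * NUP1.l)) /
      (Complex.cos (2 * β * z + β * NUP1.l) + (κ : ℂ)) ^ 2) z := by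
  have hd := denK_ne h hz h0
  have h1 : HasDerivAt (fun z : ℂ => 2 * β * z + β * NUP1.l) (2 * β) z := by
    simpa using ((hasDerivAt_id z).const_mul (2 * β : ℂ)).add_const (β * NUP1.l : ℂ)
  have h2 := h1.ccos
  have h3 := (h2.sub_const (κ : ℂ)).div (h2.add_const (κ : ℂ)) hd
  have e : psiK κ β = fun z : ℂ => (Complex.cos (2 * β * z + β * NUP1.l) - (κ : ℂ)) /
      (Complex.cos (2 * β * z + β * NUP1.l) + (κ : ℂ)) := rfl
  rw [e]
  refine h3.congr_deriv ?_
  congr 1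
  ring

theorem norm_deriv_psiK (h : Adm β s) (hz : |z.re + NUP1.l / 2| ≤ s) (h0 : 0 < κ) (h1' : κ ≤ 1) :
    ‖deriv (psiK κ β) z‖ ≤ C0 β s * Real.exp (-(2 * β) * |z.im|) := by
  rw [(hasDerivAt_psiK h hz h0).deriv]
  have hk := h.kap_pos
  have hβ := h.pos
  obtain ⟨c, hc⟩ : ∃ c : ℝ, c = Real.cosh (2 * β * z.im) := ⟨_, rfl⟩
  have hc0 : 0 < c := by rw [hc]; exact Real.cosh_pos _
  have h1 : ‖Complex.sin (2 * β * z + β * NUP1.l)‖ ≤ c := by
    have := PBLZ.norm_sin_le (2 * β * z + β * NUP1.l)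
    rwa [NUP1.im_arg, ← hc] at this
  have h2 : ‖((κ : ℝ) : ℂ)‖ ≤ 1 := by
    rw [Complex.norm_real, Real.norm_of_nonneg h0.le]
    exact h1'
  have h3 : kap β s * c ≤ ‖Complex.cos (2 * β * z + β * NUP1.l) + (κ : ℂ)‖ := by
    have := (denK_re (κ := κ) h hz).trans (Complex.re_le_norm _)
    rw [← hc] at this
    linarith
  have h4 : ‖(4 : ℂ) * β‖ = 4 * β := by
    rw [norm_mul, Complex.norm_real, Real.norm_of_nonneg hβ.le]
    simp
  have h5 : Real.exp |2 * β * z.im| / 2 ≤ c := by rw [hc]; exact NUP1.cosh_ge _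
  rw [NUP1.abs_arg h] at h5
  rw [norm_div, norm_neg, norm_mul, norm_mul, norm_pow, h4]
  have h6 : 4 * β * ‖((κ : ℝ) : ℂ)‖ * ‖Complex.sin (2 * β * z + β * NUP1.l)‖ ≤
      4 * β * 1 * c := by
    refine mul_le_mul (mul_le_mul_of_nonneg_left h2 (by positivity)) h1 (norm_nonneg _)
      (by positivity)
  have h7 : (kap β s * c) ^ 2 ≤
      ‖Complex.cos (2 * β * z + β * NUP1.l) + (κ : ℂ)‖ ^ 2 :=
    pow_le_pow_left₀ (by positivity) h3 2
  refine (div_le_div₀ (by positivity) h6 (by positivity) h7).trans ?_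
  have h8 : 4 * β * 1 * c / (kap β s * c) ^ 2 = 4 * β / kap β s ^ 2 * c⁻¹ := by
    field_simp
  rw [h8]
  have h9 : c⁻¹ ≤ 2 * Real.exp (-(2 * β) * |z.im|) := by
    rw [inv_le_comm₀ hc0 (by positivity)]
    rw [mul_inv, ← Real.exp_neg]
    rw [show -(-(2 * β) * |z.im|) = 2 * β * |z.im| by ring]
    linarith
  calc 4 * β / kap β s ^ 2 * c⁻¹ ≤ 4 * β / kap β s ^ 2 * (2 * Real.exp (-(2 * β) * |z.im|)) :=
        mul_le_mul_of_nonneg_left h9 (by positivity)
    _ = _ := by unfold C0; ring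

/-- **the pair** -/
theorem psi_pair (β : ℝ) (u : ℂ) : psi β (u - (NUP1.l : ℂ) / 2) * psi β (u - -((NUP1.l : ℂ) / 2)) =
    psiK 1 β u * psiK (Real.cos (2 * β * NUP1.l)) β u := by
  unfold psi psiK
  rw [div_mul_div_comm, div_mul_div_comm]
  obtain ⟨A, hA⟩ : ∃ A : ℂ, A = 2 * β * u + β * NUP1.l := ⟨_, rfl⟩
  obtain ⟨a, ha⟩ : ∃ a : ℂ, a = β * NUP1.l := ⟨_, rfl⟩
  have e1 : 2 * (β : ℂ) * (u - (NUP1.l : ℂ) / 2) + β * NUP1.l = A - a := by rw [hA, ha]; ring
  have e2 : 2 * (β : ℂ) * (u - -((NUP1.l : ℂ) / 2)) + β * NUP1.l = A + a := by rw [hA, ha]; ring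
  have e3 : ((Real.cos (2 * β * NUP1.l) : ℝ) : ℂ) = 2 * Complex.cos a ^ 2 - 1 := by
    rw [ofReal_cos, ← Complex.cos_two_mul, ha]
    push_cast
    congr 1
    ring
  have h1 := Complex.sin_sq_add_cos_sq A
  have h2 := Complex.sin_sq_add_cos_sq a
  rw [e1, e2, e3, ← hA, ← ha, Complex.cos_sub, Complex.cos_add]
  congr 1
  · push_cast
    linear_combination (-(Complex.sin a ^ 2)) * h1 + (Complex.cos A ^ 2 - 1) * h2
  · push_cast
    linear_combination (-(Complex.sin a ^ 2)) * h1 + (Complex.cos A ^ 2 - 1) * h2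

/-! ### lists -/

/-- the product of the factors -/
def PK (β : ℝ) (L : List (ℝ × ℂ)) (u : ℂ) : ℂ := (L.map fun p => psiK p.1 β (u - p.2)).prod

/-- the points -/
def pts (L : List (ℝ × ℂ)) : List ℂ := L.map fun p => p.2

/-- constant of the size -/
def kM (κm β s : ℝ) : ℝ := κm * kap β s / 2

theorem kM_pos (h : Adm β s) (h0 : 0 < κm) : 0 < kM κm β s := by
  unfold kM
  have := h.kap_pos
  positivity

/-- a list of good factors -/
structure LOk (κm β s : ℝ) (L : List (ℝ × ℂ)) (u : ℂ) : Prop where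
  lo : ∀ p ∈ L, κm ≤ p.1
  hi : ∀ p ∈ L, p.1 ≤ 1
  st : ∀ p ∈ L, |(u - p.2).re + NUP1.l / 2| ≤ s

theorem LOk.tail {p : ℝ × ℂ} (h : LOk κm β s (p :: L) u) : LOk κm β s L u :=
  ⟨fun q hq => h.lo q (by simp [hq]), fun q hq => h.hi q (by simp [hq]), fun q hq => h.st q (by simp [hq])⟩

theorem norm_one_factor (h : Adm β s) (h0 : 0 < κm) {p : ℝ × ℂ} (h1 : κm ≤ p.1) (h2 : p.1 ≤ 1)
    (h3 : |(u - p.2).re + NUP1.l / 2| ≤ s) : ‖psiK p.1 β (u - p.2)‖ ≤
      Real.exp (-(kM κm β s * Real.exp (-(2 * β) * |(u - p.2).im|))) := by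
  refine (norm_psiK h h3 (h0.trans_le h1) h2).trans (Real.exp_le_exp.2 (neg_le_neg ?_))
  refine mul_le_mul_of_nonneg_right ?_ (Real.exp_pos _).le
  unfold kM
  have := h.kap_pos
  have := mul_le_mul_of_nonneg_right h1 this.le
  linarith

theorem norm_PK (h : Adm β s) (h0 : 0 < κm) (hL : LOk κm β s L u) :
    ‖PK β L u‖ ≤ Real.exp (-(kM κm β s * SX β (pts L) u)) := by
  induction L with
  | nil => simp [PK, pts, SX]
  | cons p L ih =>
    have e : PK β (p :: L) u = psiK p.1 β (u - p.2) * PK β L u := by simp [PK]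
    have e2 : pts (p :: L) = p.2 :: pts L := rfl
    rw [e, e2, SX_cons, norm_mul, mul_add, neg_add, Real.exp_add]
    exact mul_le_mul (norm_one_factor h h0 (hL.lo p (by simp)) (hL.hi p (by simp)) (hL.st p (by simp)))
      (ih hL.tail) (norm_nonneg _) (Real.exp_pos _).le

/-- **derivative of the product** -/
theorem deriv_PK (h : Adm β s) (h0 : 0 < κm) (hL : LOk κm β s L u) :
    DifferentiableAt ℂ (PK β L) u ∧ ‖deriv (PK β L) u‖ ≤
      C0 β s * Real.exp (kM κm β s) * (SX β (pts L) u * Real.exp (-(kM κm β s * SX β (pts L) u))) := by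
  have hk := kM_pos h h0
  have hC := C0_pos h
  induction L with
  | nil =>
    have e : PK β [] = fun _ => 1 := by
      funext v
      simp [PK]
    rw [e]
    refine ⟨differentiableAt_const _, ?_⟩
    rw [deriv_const, norm_zero]
    simp [SX, pts]
  | cons p L ih =>
    obtain ⟨i1, i2⟩ := ih hL.tail
    have hx := hL.st p (by simp)
    have hp0 : 0 < p.1 := h0.trans_le (hL.lo p (by simp))
    have hp1 := hL.hi p (by simp)
    have i3 := norm_PK h h0 hL.tail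
    have e : PK β (p :: L) = fun v => psiK p.1 β (v - p.2) * PK β L v := by
      funext v
      simp [PK]
    have d1 : HasDerivAt (fun v => psiK p.1 β (v - p.2)) (deriv (psiK p.1 β) (u - p.2)) u := by
      have h1 := (hasDerivAt_psiK h hx hp0).differentiableAt.hasDerivAt
      have h2 := h1.comp u ((hasDerivAt_id u).sub_const p.2)
      rw [mul_one] at h2
      exact h2
    have d2 := d1.mul i1.hasDerivAt
    rw [e]
    refine ⟨d2.differentiableAt, ?_⟩
    have d3 : deriv (fun v => psiK p.1 β (v - p.2) * PK β L v) u =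
        deriv (psiK p.1 β) (u - p.2) * PK β L u + psiK p.1 β (u - p.2) * deriv (PK β L) u := d2.deriv
    have e2 : pts (p :: L) = p.2 :: pts L := rfl
    rw [d3, e2, SX_cons]
    obtain ⟨a, ha⟩ : ∃ a : ℝ, a = Real.exp (-(2 * β) * |(u - p.2).im|) := ⟨_, rfl⟩
    obtain ⟨S, hS⟩ : ∃ S : ℝ, S = SX β (pts L) u := ⟨_, rfl⟩
    have ha0 : 0 < a := by rw [ha]; exact Real.exp_pos _
    have ha1 : a ≤ 1 := by
      rw [ha, Real.exp_le_one_iff]
      have := mul_nonneg h.pos.le (abs_nonneg (u - p.2).im)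
      linarith
    have hS0 : 0 ≤ S := by rw [hS]; exact SX_nonneg _ _ _
    have b1 := norm_deriv_psiK h hx hp0 hp1
    have b2 := norm_one_factor h h0 (hL.lo p (by simp)) hp1 hx
    have b2' : ‖psiK p.1 β (u - p.2)‖ ≤ Real.exp (-(kM κm β s * a)) := by
      rw [ha]; exact b2
    rw [← ha] at b1
    rw [← hS] at i2 i3
    rw [← ha, ← hS]
    refine (norm_add_le _ _).trans ?_
    rw [norm_mul, norm_mul]
    have t1 : ‖deriv (psiK p.1 β) (u - p.2)‖ * ‖PK β L u‖ ≤ C0 β s * a * Real.exp (-(kM κm β s * S)) :=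
      mul_le_mul b1 i3 (norm_nonneg _) (by positivity)
    have t2 : ‖psiK p.1 β (u - p.2)‖ * ‖deriv (PK β L) u‖ ≤ Real.exp (-(kM κm β s * a)) *
        (C0 β s * Real.exp (kM κm β s) * (S * Real.exp (-(kM κm β s * S)))) :=
      mul_le_mul b2' i2 (norm_nonneg _) (Real.exp_pos _).le
    have e1 : Real.exp (-(kM κm β s * S)) ≤ Real.exp (kM κm β s) * Real.exp (-(kM κm β s * (a + S))) := by
      rw [← Real.exp_add]
      refine Real.exp_le_exp.2 ?_
      nlinarith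
    have e2 : Real.exp (-(kM κm β s * a)) * Real.exp (-(kM κm β s * S)) =
        Real.exp (-(kM κm β s * (a + S))) := by
      rw [← Real.exp_add]
      congr 1
      ring
    calc _ ≤ C0 β s * a * Real.exp (-(kM κm β s * S)) + Real.exp (-(kM κm β s * a)) *
          (C0 β s * Real.exp (kM κm β s) * (S * Real.exp (-(kM κm β s * S)))) := add_le_add t1 t2
      _ ≤ C0 β s * a * (Real.exp (kM κm β s) * Real.exp (-(kM κm β s * (a + S)))) +
          C0 β s * Real.exp (kM κm β s) * (S * (Real.exp (-(kM κm β s * a)) *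
            Real.exp (-(kM κm β s * S)))) := by
          refine add_le_add (mul_le_mul_of_nonneg_left e1 (by positivity)) (le_of_eq (by ring))
      _ = _ := by
          rw [e2]
          ring

/-- the cutoff of a list of factors -/
def phK (β : ℝ) (L : List (ℝ × ℂ)) (u : ℂ) : ℂ := 1 - PK β L u

/-- its logarithmic derivative -/
def cutLK (β : ℝ) (L : List (ℝ × ℂ)) (u : ℂ) : ℂ := deriv (phK β L) u / phK β L u

/-- constant of `cut_mainK` -/
def KM (κm β s : ℝ) : ℝ := C0 β s * Real.exp (kM κm β s) / kM κm β s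

theorem KM_pos (h : Adm β s) (h0 : 0 < κm) : 0 < KM κm β s := by
  unfold KM
  have := kM_pos h h0
  have := C0_pos h
  positivity

theorem pts_ne (hL : L ≠ []) : pts L ≠ [] := by
  unfold pts
  simpa using hL

/-- **no zeros in the strip, small logarithmic derivative in the bulk** -/
theorem cut_mainK (h : Adm β s) (h0 : 0 < κm) (hne : L ≠ []) (hL : LOk κm β s L u) :
    phK β L u ≠ 0 ∧ DifferentiableAt ℂ (phK β L) u ∧
      ‖cutLK β L u‖ ≤ KM κm β s * Real.exp (-(kM κm β s * SX β (pts L) u / 2)) := by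
  have hk := kM_pos h h0
  have hC := C0_pos h
  have hS : 0 < SX β (pts L) u := SX_pos (pts_ne hne)
  obtain ⟨d1, d2⟩ := deriv_PK h h0 hL
  have n1 := norm_PK h h0 hL
  obtain ⟨y, hy⟩ : ∃ y : ℝ, y = kM κm β s * SX β (pts L) u := ⟨_, rfl⟩
  have hy0 : 0 < y := by rw [hy]; positivity
  rw [← hy] at n1
  have he : Real.exp (-y) < 1 := by rw [Real.exp_lt_one_iff]; linarith
  have e0 : phK β L = fun u => 1 - PK β L u := rfl
  have n2 : 1 - Real.exp (-y) ≤ ‖phK β L u‖ := by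
    rw [e0]
    have h1 := norm_sub_norm_le (1 : ℂ) (PK β L u)
    rw [norm_one] at h1
    linarith
  have n3 : 0 < ‖phK β L u‖ := by linarith
  have hd : DifferentiableAt ℂ (phK β L) u := by
    rw [e0]
    exact d1.const_sub 1
  refine ⟨norm_pos_iff.1 n3, hd, ?_⟩
  have e : deriv (phK β L) u = -deriv (PK β L) u := by
    rw [e0]
    exact deriv_const_sub 1
  unfold cutLK
  rw [e, norm_div, norm_neg, div_le_iff₀ n3]
  have h3 := PBLZ.x_exp hy0
  calc ‖deriv (PK β L) u‖ ≤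
        C0 β s * Real.exp (kM κm β s) * (SX β (pts L) u * Real.exp (-(kM κm β s * SX β (pts L) u))) := d2
    _ = KM κm β s * (y * Real.exp (-y)) := by
        rw [← hy]
        unfold KM
        rw [hy]
        field_simp
    _ ≤ KM κm β s * (Real.exp (-(y / 2)) * (1 - Real.exp (-y))) :=
        mul_le_mul_of_nonneg_left h3 (KM_pos h h0).le
    _ ≤ KM κm β s * (Real.exp (-(y / 2)) * ‖phK β L u‖) := by
        have := (KM_pos h h0).le
        gcongr
    _ = _ := by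
        rw [hy]
        ring

/-! ### heights -/

section heights

variable {r h : ℝ}

/-- the force of the cutoff at the height `z` -/
def cutIK (β : ℝ) (L : List (ℝ × ℂ)) (z : ℂ) : ℂ := I * cutLK β L (NUP1.l + I * z)

/-- a list of good factors, without the strip -/
structure LOk0 (κm r : ℝ) (L : List (ℝ × ℂ)) : Prop where
  lo : ∀ p ∈ L, κm ≤ p.1
  hi : ∀ p ∈ L, p.1 ≤ 1
  re : ∀ p ∈ L, |p.2.re| ≤ r

theorem LOk0.ok (hL : LOk0 κm r L) (h1 : -(s - 3 / 2 * NUP1.l - r) ≤ z.im)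
    (h2 : z.im ≤ 3 / 2 * NUP1.l + s - r) : LOk κm β s L (NUP1.l + I * z) := by
  refine ⟨hL.lo, hL.hi, fun p hp => ?_⟩
  obtain ⟨h3, h4⟩ := abs_le.1 (hL.re p hp)
  rw [sub_re, u_re, abs_le]
  constructor <;> linarith

theorem cutIK_bd (hA : Adm β s) (h0 : 0 < κm) (hne : L ≠ []) (hL : LOk0 κm r L)
    (hh : ∀ p ∈ L, |p.2.im| ≤ h) (h1 : -(s - 3 / 2 * NUP1.l - r) ≤ z.im)
    (h2 : z.im ≤ 3 / 2 * NUP1.l + s - r) :
    ‖cutIK β L z‖ ≤ KM κm β s * Real.exp (-(kM κm β s / 2 * Real.exp (-(2 * β * h)) *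
      (L.length * Real.exp (-(2 * β) * |z.re|)))) := by
  have key := (cut_mainK hA h0 hne (hL.ok (β := β) h1 h2)).2.2
  unfold cutIK
  rw [norm_mul, norm_I, one_mul]
  refine key.trans (mul_le_mul_of_nonneg_left (Real.exp_le_exp.2 ?_) (KM_pos hA h0).le)
  have h3 := SX_ge (β := β) (X := pts L) hA.pos.le (h := h) (fun x hx => by
    unfold pts at hx
    obtain ⟨p, hp, rfl⟩ := List.mem_map.1 hx
    exact hh p hp) (u_im z)
  have e : (pts L).length = L.length := by unfold pts; exact List.length_map _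
  rw [e] at h3
  have h4 := mul_le_mul_of_nonneg_left h3 (kM_pos hA h0).le
  linarith

theorem cutIK_bd' (hA : Adm β s) (h0 : 0 < κm) (hne : L ≠ []) (hL : LOk0 κm r L)
    (h1 : -(s - 3 / 2 * NUP1.l - r) ≤ z.im)
    (h2 : z.im ≤ 3 / 2 * NUP1.l + s - r) : ‖cutIK β L z‖ ≤ KM κm β s := by
  have key := (cut_mainK hA h0 hne (hL.ok (β := β) h1 h2)).2.2
  unfold cutIK
  rw [norm_mul, norm_I, one_mul]
  refine key.trans (mul_le_of_le_one_right (KM_pos hA h0).le (Real.exp_le_one_iff.2 ?_))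
  have := mul_nonneg (kM_pos hA h0).le (SX_nonneg β (pts L) (NUP1.l + I * z))
  linarith

theorem cutIK_diff (hA : Adm β s) (h0 : 0 < κm) (hne : L ≠ []) (hL : LOk0 κm r L) :
    DifferentiableOn ℂ (cutIK β L) {z : ℂ | -(s - 3 / 2 * NUP1.l - r) < z.im ∧
      z.im < 3 / 2 * NUP1.l + s - r} := by
  have ho := strip_open (-(s - 3 / 2 * NUP1.l - r)) (3 / 2 * NUP1.l + s - r)
  have hd : DifferentiableOn ℂ (fun z => phK β L (NUP1.l + I * z))
      {z : ℂ | -(s - 3 / 2 * NUP1.l - r) < z.im ∧ z.im < 3 / 2 * NUP1.l + s - r} := by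
    intro z hz
    have h1 := (cut_mainK hA h0 hne (hL.ok hz.1.le hz.2.le)).2.1
    exact (h1.comp z (by fun_prop : DifferentiableAt ℂ (fun z : ℂ => (NUP1.l : ℂ) + I * z) z)).differentiableWithinAt
  have h2 := hd.deriv ho
  refine (h2.div hd fun z hz => (cut_mainK hA h0 hne (hL.ok hz.1.le hz.2.le)).1).congr
    fun z hz => ?_
  have h1 := (cut_mainK hA h0 hne (hL.ok hz.1.le hz.2.le)).2.1
  have h3 : HasDerivAt (fun z : ℂ => (NUP1.l : ℂ) + I * z) I z := by
    simpa using ((hasDerivAt_id z).const_mul I).const_add (NUP1.l : ℂ)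
  have h4 := h1.hasDerivAt.comp z h3
  have h5 : deriv (fun z => phK β L (NUP1.l + I * z)) z =
      deriv (phK β L) (NUP1.l + I * z) * I := h4.deriv
  simp only [Pi.div_apply]
  rw [h5]
  unfold cutIK cutLK
  ring

end heights

/-! ### the rows in two places -/

section rows

variable {m b : ℕ} {x : Fin m → ℂ} {W : List ℂ}

/-- the factors -/
def LH (β : ℝ) (b : ℕ) (W : List ℂ) : List (ℝ × ℂ) :=
  List.replicate b (1, 0) ++ (List.replicate b (Real.cos (2 * β * NUP1.l), 0) ++ W.map fun w => (cl β, w))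

theorem LH_len (β : ℝ) (b : ℕ) (W : List ℂ) : (LH β b W).length = 2 * b + W.length := by
  simp only [LH, List.length_append, List.length_replicate, List.length_map]
  omega

theorem LH_ne (hb : 0 < b) : LH β b W ≠ [] := by
  intro h
  have := LH_len β b W
  rw [h, List.length_nil] at this
  omega

theorem phi_LH (hc : PBX.Cnt x 0 b b) (W : List ℂ) : phi β (List.ofFn x ++ W) = phK β (LH β b W) := by
  funext u
  unfold phi phK PK LH
  rw [List.map_append, List.prod_append, List.map_ofFn, List.prod_ofFn, List.map_append, List.prod_append,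
    List.map_append, List.prod_append, List.map_replicate, List.map_replicate, List.prod_replicate,
    List.prod_replicate, List.map_map]
  have h1 := hc.pr fun y => psi β (u - y)
  rw [pow_zero, one_mul, ← mul_pow, psi_pair, mul_pow] at h1
  have h2 : ∏ i : Fin m, ((fun y => psi β (u - y)) ∘ x) i = ∏ i, psi β (u - x i) := rfl
  rw [h2, h1]
  have h3 : (W.map ((fun p : ℝ × ℂ => psiK p.1 β (u - p.2)) ∘ fun w => (cl β, w))).prod =
      (W.map fun w => psi β (u - w)).prod := by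
    congr 1
    refine List.map_congr_left fun w _ => ?_
    rw [psi_eq]
    rfl
  rw [h3, mul_assoc]
  simp only [sub_zero]

theorem cutL_LH (hc : PBX.Cnt x 0 b b) (W : List ℂ) : cutL β (List.ofFn x ++ W) = cutLK β (LH β b W) := by
  funext u
  unfold cutL cutLK
  rw [phi_LH hc W]

theorem cutI_LH (hc : PBX.Cnt x 0 b b) (W : List ℂ) : cutI β (List.ofFn x ++ W) = cutIK β (LH β b W) := by
  funext u
  unfold cutI cutIK
  rw [cutL_LH hc W]

theorem LH_ok0 {r : ℝ} (h1 : κm ≤ 1) (h2 : κm ≤ Real.cos (2 * β * NUP1.l)) (h3 : κm ≤ cl β) (hr : 0 ≤ r)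
    (hW : ∀ w ∈ W, |w.re| ≤ r) : LOk0 κm r (LH β b W) := by
  have hm : ∀ p ∈ LH β b W, p = (1, 0) ∨ p = (Real.cos (2 * β * NUP1.l), 0) ∨ ∃ w ∈ W, p = (cl β, w) := by
    intro p hp
    unfold LH at hp
    rw [List.mem_append, List.mem_append, List.mem_replicate, List.mem_replicate, List.mem_map] at hp
    rcases hp with ⟨-, h⟩ | ⟨-, h⟩ | ⟨w, hw, h⟩
    · exact Or.inl h
    · exact Or.inr (Or.inl h)
    · exact Or.inr (Or.inr ⟨w, hw, h.symm⟩)
  refine ⟨fun p hp => ?_, fun p hp => ?_, fun p hp => ?_⟩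
  · rcases hm p hp with rfl | rfl | ⟨w, -, rfl⟩
    · exact h1
    · exact h2
    · exact h3
  · rcases hm p hp with rfl | rfl | ⟨w, -, rfl⟩
    · exact le_rfl
    · exact Real.cos_le_one _
    · exact NUP1.cl_le_one β
  · rcases hm p hp with rfl | rfl | ⟨w, hw, rfl⟩
    · simpa using hr
    · simpa using hr
    · exact hW w hw

theorem LH_im {h : ℝ} (hh : 0 ≤ h) (hW : ∀ w ∈ W, |w.im| ≤ h) : ∀ p ∈ LH β b W, |p.2.im| ≤ h := by
  intro p hp
  unfold LH at hp
  rw [List.mem_append, List.mem_append, List.mem_replicate, List.mem_replicate, List.mem_map] at hp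
  rcases hp with ⟨-, rfl⟩ | ⟨-, rfl⟩ | ⟨w, hw, rfl⟩
  · simpa using hh
  · simpa using hh
  · exact hW w hw

end rows

/-! ### the standard data -/

section std

variable {ep : ℝ}

/-- the smallest value of the factors -/
theorem half_cos (h0 : 0 < ep) (h1 : ep ≤ 1 / 100) :
    1 / 2 ≤ Real.cos (2 * (4 / 3 * (1 - ep)) * NUP1.l) ∧ 1 / 2 ≤ cl (4 / 3 * (1 - ep)) := by
  have hpi := Real.pi_pos
  have e1 : 2 * (4 / 3 * (1 - ep)) * NUP1.l = Real.pi / 3 * (1 - ep) := by unfold NUP1.l; ring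
  have e2 : 4 / 3 * (1 - ep) * NUP1.l = Real.pi / 6 * (1 - ep) := by unfold NUP1.l; ring
  unfold cl
  rw [e1, e2, ← Real.cos_pi_div_three]
  constructor
  · refine Real.cos_le_cos_of_nonneg_of_le_pi ?_ ?_ ?_ <;> nlinarith
  · refine Real.cos_le_cos_of_nonneg_of_le_pi ?_ ?_ ?_ <;> nlinarith

theorem admE (h0 : 0 < ep) (h1 : ep ≤ 1 / 100) :
    Adm (4 / 3 * (1 - ep)) (3 * NUP1.l / 2 + ep / 2) := NUP1.adm h0 (by linarith) (by linarith) le_rfl

theorem LH_std (h0 : 0 < ep) (h1 : ep ≤ 1 / 100) (b : ℕ) {W : List ℂ} (hW : ∀ w ∈ W, w.re = 0) :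
    LOk0 (1 / 2) 0 (LH (4 / 3 * (1 - ep)) b W) := by
  obtain ⟨h2, h3⟩ := half_cos h0 h1
  exact LH_ok0 (by norm_num) h2 h3 le_rfl fun w hw => by rw [hW w hw, abs_zero]

variable {m b : ℕ} {x : Fin m → ℂ} {W : List ℂ}

theorem ext_re : ∀ w ∈ ([I, -I] : List ℂ), w.re = 0 := by
  intro w hw
  simp only [List.mem_cons, List.not_mem_nil, or_false] at hw
  rcases hw with rfl | rfl <;> simp

theorem ext_im : ∀ w ∈ ([I, -I] : List ℂ), |w.im| ≤ 1 := by
  intro w hw
  simp only [List.mem_cons, List.not_mem_nil, or_false] at hw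
  rcases hw with rfl | rfl <;> simp

/-- **the force of the cutoff: analytic and bounded** -/
theorem cut_facH (h0 : 0 < ep) (h1 : ep ≤ 1 / 100) (hb : 0 < b) (hc : PBX.Cnt x 0 b b) {z : ℂ}
    (hz : |z.im| < ep / 2) :
    DifferentiableAt ℂ (cutI (4 / 3 * (1 - ep)) (List.ofFn x ++ [I, -I])) z ∧
      ‖cutI (4 / 3 * (1 - ep)) (List.ofFn x ++ [I, -I]) z‖ ≤
        KM (1 / 2) (4 / 3 * (1 - ep)) (3 * NUP1.l / 2 + ep / 2) := by
  have hl := NUP1.l_pos
  have hA := admE h0 h1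
  obtain ⟨h2, h3⟩ := abs_lt.1 hz
  rw [cutI_LH hc]
  have hL := LH_std h0 h1 b ext_re
  refine ⟨?_, cutIK_bd' hA (by norm_num) (LH_ne hb) hL (by linarith) (by linarith)⟩
  have hd := cutIK_diff hA (by norm_num) (LH_ne hb) hL
  have hm : z ∈ {z : ℂ | -(3 * NUP1.l / 2 + ep / 2 - 3 / 2 * NUP1.l - 0) < z.im ∧
      z.im < 3 / 2 * NUP1.l + (3 * NUP1.l / 2 + ep / 2) - 0} := by
    constructor <;> linarith
  exact (hd z hm).differentiableAt ((strip_open _ _).mem_nhds hm)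

/-- **the mass of the cutoff against the decay of the field** -/
theorem cut_massH (h0 : 0 < ep) (h1 : ep ≤ 1 / 100) : ∃ C : ℝ, 0 ≤ C ∧ ∀ (m b : ℕ) (x : Fin m → ℂ), 0 < b →
    PBX.Cnt x 0 b b →
    Integrable (fun t : ℝ => Real.exp (-(8 / 3 * |t|)) *
      ‖cutI (4 / 3 * (1 - ep)) (List.ofFn x ++ [I, -I]) t‖) ∧
    ∫ t : ℝ, Real.exp (-(8 / 3 * |t|)) * ‖cutI (4 / 3 * (1 - ep)) (List.ofFn x ++ [I, -I]) t‖ ≤
      C / (2 * b + 2) := by
  have hl := NUP1.l_pos
  have hA := admE h0 h1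
  obtain ⟨β, hβ⟩ : ∃ β, β = 4 / 3 * (1 - ep) := ⟨_, rfl⟩
  obtain ⟨s, hs⟩ : ∃ s, s = 3 * NUP1.l / 2 + ep / 2 := ⟨_, rfl⟩
  have hb0 : 0 < β := by rw [hβ]; linarith
  rw [← hβ, ← hs] at hA
  have hh : (0 : ℝ) < 1 / 2 := by norm_num
  have hK := KM_pos hA hh
  obtain ⟨κ, hκ⟩ : ∃ κ, κ = kM (1 / 2) β s / 2 * Real.exp (-(2 * β * 1)) := ⟨_, rfl⟩
  have hκ0 : 0 < κ := by
    have := kM_pos hA hh
    rw [hκ]
    positivity
  have hi : Integrable fun t : ℝ => Real.exp (-(8 / 3 * ep) * |t|) := by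
    have := (PBE.int_exp_abs (a := 8 / 3 * ep) (by positivity)).1
    simpa only [neg_mul] using this
  refine ⟨KM (1 / 2) β s / κ * ∫ t : ℝ, Real.exp (-(8 / 3 * ep) * |t|), ?_, fun m b x hb hc => ?_⟩
  · have : 0 ≤ ∫ t : ℝ, Real.exp (-(8 / 3 * ep) * |t|) :=
      integral_nonneg fun t => (Real.exp_pos _).le
    positivity
  · have hfac := fun t : ℝ => (cut_facH h0 h1 hb hc (z := (t : ℂ)) (by
        rw [Complex.ofReal_im, abs_zero]
        positivity)).1.continuousAt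
    rw [← hβ] at hfac ⊢
    have hL := LH_std h0 h1 b ext_re
    rw [← hβ] at hL
    have hk : ∀ t : ℝ, Real.exp (-(8 / 3 * |t|)) * ‖cutI β (List.ofFn x ++ [I, -I]) t‖ ≤
        KM (1 / 2) β s / κ / (2 * b + 2) * Real.exp (-(8 / 3 * ep) * |t|) := by
      intro t
      have c1 := cutIK_bd hA hh (LH_ne (β := β) (W := [I, -I]) hb) hL (h := 1) (z := (t : ℂ))
        (LH_im (by norm_num) ext_im) (by
        rw [Complex.ofReal_im, hs]
        linarith) (by
        rw [Complex.ofReal_im, hs]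
        linarith)
      have eL : ((LH β b [I, -I]).length : ℝ) = 2 * b + 2 := by
        rw [LH_len]
        push_cast
        simp
      rw [Complex.ofReal_re, eL, ← hκ, ← cutI_LH hc] at c1
      have c2 := PBLZ.cut_exp (a := 2 * β) (k := κ) (m := 2 * (b : ℝ) + 2) (t := t) hb0 (by positivity)
        hκ0 (by positivity)
      have e1 : 2 * β / (2 * β) = 1 := div_self (by positivity)
      rw [e1, Real.rpow_one, Real.rpow_neg_one] at c2
      have e2 : Real.exp (-(8 / 3 * |t|)) =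
          Real.exp (-(8 / 3 * ep) * |t|) * Real.exp (-(2 * β * |t|)) := by
        rw [← Real.exp_add, hβ]
        congr 1
        ring
      have e3 := Real.exp_pos (-(8 / 3 * ep) * |t|)
      have e4 := Real.exp_pos (-(2 * β * |t|))
      calc Real.exp (-(8 / 3 * |t|)) * ‖cutI β (List.ofFn x ++ [I, -I]) t‖
          ≤ Real.exp (-(8 / 3 * |t|)) * (KM (1 / 2) β s *
              Real.exp (-(κ * ((2 * (b : ℝ) + 2) * Real.exp (-(2 * β) * |t|))))) :=
            mul_le_mul_of_nonneg_left c1 (Real.exp_pos _).le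
        _ = KM (1 / 2) β s * Real.exp (-(8 / 3 * ep) * |t|) * (Real.exp (-(2 * β * |t|)) *
              Real.exp (-(κ * ((2 * (b : ℝ) + 2) * Real.exp (-(2 * β) * |t|))))) := by
            rw [e2]
            ring
        _ ≤ KM (1 / 2) β s * Real.exp (-(8 / 3 * ep) * |t|) * (1 / κ * (2 * (b : ℝ) + 2)⁻¹) :=
            mul_le_mul_of_nonneg_left c2 (by positivity)
        _ = _ := by
            have e5 : 2 * (b : ℝ) + 2 ≠ 0 := by positivity
            field_simp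
    have hcont : Continuous fun t : ℝ => cutI β (List.ofFn x ++ [I, -I]) t := by
      refine continuous_iff_continuousAt.2 fun t => ?_
      exact ContinuousAt.comp (f := fun t : ℝ => (t : ℂ)) (hfac t) Complex.continuous_ofReal.continuousAt
    have hi2 : Integrable fun t : ℝ => Real.exp (-(8 / 3 * |t|)) * ‖cutI β (List.ofFn x ++ [I, -I]) t‖ := by
      refine (hi.const_mul (KM (1 / 2) β s / κ / (2 * b + 2))).mono' ?_ (Eventually.of_forall fun t => ?_)
      · exact (Continuous.mul (by fun_prop) hcont.norm).aestronglyMeasurable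
      · rw [Real.norm_of_nonneg (by positivity)]
        exact hk t
    refine ⟨hi2, ?_⟩
    refine (integral_mono hi2 (hi.const_mul _) hk).trans (le_of_eq ?_)
    rw [integral_const_mul]
    ring

/-- hypotheses on rows, cutoff points and legs -/
structure LZOkH (ep : ℝ) (b : ℕ) (x : Fin m → ℂ) (W : List ℂ) (p : ℂ) : Prop where
  e0 : 0 < ep
  e1 : ep ≤ 1 / 100
  b0 : 0 < b
  cnt : PBX.Cnt x 0 b b
  W : ∀ w ∈ W, w.re = 0
  p : |p.re| ≤ NUP1.l / 2

variable {p : ℂ}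

open NUO (Ks)

theorem ks_reH (h1 : ep ≤ 1 / 100) {u : ℂ} (hu : u.re ∈ Ks (ep / 4)) :
    19 / 20 * NUP1.l ≤ u.re ∧ u.re ≤ 21 / 20 * NUP1.l := by
  obtain ⟨h3, h4⟩ := hu
  have hl := NUP1.l_pos
  exact ⟨h3, h4.trans (by nlinarith)⟩

theorem LZOkH.ok (h : LZOkH ep b x W p) {u : ℂ} (hu : u.re ∈ Ks (ep / 4)) :
    LOk (1 / 2) (4 / 3 * (1 - ep)) (3 * NUP1.l / 2 + ep / 2) (LH (4 / 3 * (1 - ep)) b W) u := by
  have hL := LH_std h.e0 h.e1 b h.W
  refine ⟨hL.lo, hL.hi, fun q hq => ?_⟩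
  have h1 := hL.re q hq
  have h2 : q.2.re = 0 := abs_nonpos_iff.1 h1
  have hl := NUP1.l_pos
  have hl1 : NUP1.l ≤ 1 := by
    unfold NUP1.l
    linarith [Real.pi_le_four]
  have h0 := h.e0
  obtain ⟨h3, h4⟩ := hu
  rw [sub_re, h2, sub_zero, abs_le]
  constructor <;> nlinarith

/-- **the cutoff has no zeros** -/
theorem LZOkH.main (h : LZOkH ep b x W p) {u : ℂ} (hu : u.re ∈ Ks (ep / 4)) :
    phi (4 / 3 * (1 - ep)) (List.ofFn x ++ W) u ≠ 0 ∧
      DifferentiableAt ℂ (phi (4 / 3 * (1 - ep)) (List.ofFn x ++ W)) u ∧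
      ‖cutL (4 / 3 * (1 - ep)) (List.ofFn x ++ W) u‖ ≤
        KM (1 / 2) (4 / 3 * (1 - ep)) (3 * NUP1.l / 2 + ep / 2) := by
  have hA := admE h.e0 h.e1
  have hh : (0 : ℝ) < 1 / 2 := by norm_num
  obtain ⟨h1, h2, h3⟩ := cut_mainK hA hh (LH_ne h.b0) (h.ok hu)
  rw [cutL_LH h.cnt, phi_LH h.cnt]
  refine ⟨h1, h2, h3.trans (mul_le_of_le_one_right (KM_pos hA hh).le (Real.exp_le_one_iff.2 ?_))⟩
  have := mul_nonneg (kM_pos hA hh).le (SX_nonneg (4 / 3 * (1 - ep)) (pts (LH (4 / 3 * (1 - ep)) b W)) u)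
  linarith

theorem phi_neH (h : LZOkH ep b x W p) {u : ℂ} (hu : u.re ∈ Ks (ep / 4)) :
    phi (4 / 3 * (1 - ep)) (List.ofFn x ++ W) u ≠ 0 := (h.main hu).1

theorem LZOkH.row (h : LZOkH ep b x W p) {u : ℂ} (hu : u.re ∈ Ks (ep / 4)) (i : Fin m) :
    9 / 20 * NUP1.l ≤ (u - x i).re ∧ (u - x i).re ≤ 31 / 20 * NUP1.l := by
  obtain ⟨h1, h2⟩ := ks_reH h.e1 hu
  obtain ⟨h3, h4⟩ := abs_le.1 (h.cnt.rws i)
  have hl : NUP1.l = NUMF.l := rfl
  rw [sub_re]
  constructor <;> linarith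

theorem LZOkH.leg (h : LZOkH ep b x W p) {u : ℂ} (hu : u.re ∈ Ks (ep / 4)) :
    9 / 20 * NUP1.l ≤ (p + 2 * NUP1.l - u).re ∧ (p + 2 * NUP1.l - u).re ≤ 31 / 20 * NUP1.l := by
  obtain ⟨h1, h2⟩ := ks_reH h.e1 hu
  obtain ⟨h3, h4⟩ := abs_le.1 h.p
  have e : (p + 2 * NUP1.l - u).re = p.re + 2 * NUP1.l - u.re := by simp
  rw [e]
  constructor <;> linarith

theorem LZOkH.rowOk (h : LZOkH ep b x W p) {u : ℂ} (hu : u.re ∈ Ks (ep / 4)) (i : Fin m) :
    PBForce.RowOk (u - x i) := by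
  have hl := NUP1.l_pos
  have hpi : Real.pi = 8 * NUP1.l := PBQ1.pi8
  obtain ⟨h1, h2⟩ := h.row hu i
  refine ⟨PBQ1.sin_ne_of_re (by linarith) (by rw [hpi]; linarith), ?_, ?_⟩
  · have e : (-(u - x i - 2 * NUP1.l)).re = 2 * NUP1.l - (u - x i).re := by
      simp
    have := PBQ1.sin_ne_of_re (z := -(u - x i - 2 * NUP1.l)) (by rw [e]; linarith)
      (by rw [e, hpi]; linarith)
    rwa [Complex.sin_neg, neg_ne_zero] at this
  · have e : (u - x i + 3 * NUP1.l).re = (u - x i).re + 3 * NUP1.l := by simp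
    exact PBQ1.sin_ne_of_re (by rw [e]; linarith) (by rw [e, hpi]; linarith)

theorem LZOkH.legOk (h : LZOkH ep b x W p) {u : ℂ} (hu : u.re ∈ Ks (ep / 4)) :
    Complex.sin (p - u + 2 * NUP1.l) ≠ 0 ∧ Complex.sin (p - u - 3 * NUP1.l) ≠ 0 := by
  have hl := NUP1.l_pos
  have hpi : Real.pi = 8 * NUP1.l := PBQ1.pi8
  obtain ⟨h1, h2⟩ := h.leg hu
  have e0 : (p + 2 * NUP1.l - u).re = (p - u).re + 2 * NUP1.l := by
    simp
    ring
  rw [e0] at h1 h2
  constructor
  · have e : (p - u + 2 * NUP1.l).re = (p - u).re + 2 * NUP1.l := by simp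
    exact PBQ1.sin_ne_of_re (by rw [e]; linarith) (by rw [e, hpi]; linarith)
  · have e : (-(p - u - 3 * NUP1.l)).re = 3 * NUP1.l - (p - u).re := by
      simp
    have := PBQ1.sin_ne_of_re (z := -(p - u - 3 * NUP1.l)) (by rw [e]; linarith)
      (by rw [e, hpi]; linarith)
    rwa [Complex.sin_neg, neg_ne_zero] at this

/-- **the one body function of the quanta: logarithmic derivative** -/
theorem hasDerivAt_XXH (h : LZOkH ep b x W p) (c : ℂ) (g0 s2 : ℂ → ℂ) {u : ℂ}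
    (hu : u.re ∈ Ks (ep / 4)) :
    HasDerivAt (PBX.XX c (4 / 3 * (1 - ep)) x x (PBX.gP (4 / 3 * (1 - ep)) W) g0 (PBX.Lg p p) s2 none)
      (LZX (4 / 3 * (1 - ep)) x W p u *
        PBX.XX c (4 / 3 * (1 - ep)) x x (PBX.gP (4 / 3 * (1 - ep)) W) g0 (PBX.Lg p p) s2 none u) u := by
  have d1 := PBForce.hasDerivAt_RR c x (u := u) (h.rowOk hu)
  obtain ⟨n2, d2, -⟩ := h.main hu
  have d3 := PBQ1.hasDerivAt_Th (h.legOk hu).1 (h.legOk hu).2
  have hf : PBX.XX c (4 / 3 * (1 - ep)) x x (PBX.gP (4 / 3 * (1 - ep)) W) g0 (PBX.Lg p p) s2 none =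
      fun u => NURow.RR c x x u * phi (4 / 3 * (1 - ep)) (List.ofFn x ++ W) u * PBS.Th p u := by
    funext v
    show NURow.RR c x x v * PBX.ph (4 / 3 * (1 - ep)) x (PBX.gP (4 / 3 * (1 - ep)) W) v * PBX.Lg p p v = _
    rw [PBX.ph_gP, PBLZ.Lg_Th]
  rw [hf]
  refine ((d1.mul d2.hasDerivAt).mul d3).congr_deriv ?_
  unfold LZX cutL
  simp only [Pi.mul_apply]
  generalize phi (4 / 3 * (1 - ep)) (List.ofFn x ++ W) = F at n2 ⊢
  field_simp

/-- **bounded in the strip** -/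
theorem LZX_bdH (h : LZOkH ep b x W p) : ∃ B : ℝ, ∀ u : ℂ, u.re ∈ Ks (ep / 4) →
    ‖LZX (4 / 3 * (1 - ep)) x W p u‖ ≤ B := by
  have hl := NUP1.l_pos
  have hpi : Real.pi = 8 * NUP1.l := PBQ1.pi8
  have hlM : NUMF.l = NUP1.l := rfl
  obtain ⟨C1, hC1, b1⟩ := PBQ1.ct_bound (a := 9 / 20 * NUP1.l) (b := 6 * NUP1.l) (by positivity)
    (by rw [hlM]; linarith)
  obtain ⟨C2, hC2, b2⟩ := PBQ1.fSd_bound (a := 9 / 20 * NUP1.l) (b := 31 / 20 * NUP1.l)
    (by positivity) (by rw [hlM]; linarith)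
  refine ⟨m * (4 * C1) + KM (1 / 2) (4 / 3 * (1 - ep)) (3 * NUP1.l / 2 + ep / 2) + C2, fun u hu => ?_⟩
  unfold LZX
  refine (norm_add_le _ _).trans (add_le_add ((norm_add_le _ _).trans (add_le_add ?_ ?_)) ?_)
  · rw [norm_mul, norm_neg, norm_I, one_mul]
    refine (norm_sum_le _ _).trans ?_
    have hi : ∀ i ∈ Finset.univ, ‖PBForce.rowD (u - NUP1.l - x i)‖ ≤ 4 * C1 := by
      intro i _
      obtain ⟨h1, h2⟩ := h.row hu i
      obtain ⟨v, hv⟩ : ∃ v : ℂ, v = u - x i := ⟨_, rfl⟩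
      rw [← hv] at h1 h2
      have e1 : u - NUP1.l - x i = v - NUP1.l := by rw [hv]; ring
      rw [e1]
      unfold PBForce.rowD
      rw [hlM]
      have c1 : Complex.cot (v - NUP1.l + NUP1.l) = PBQ1.ct v := by
        rw [sub_add_cancel]
        rfl
      have c2 : Complex.cot (v - NUP1.l - NUP1.l) = -PBQ1.ct (2 * NUP1.l - v) := by
        unfold Complex.cot PBQ1.ct
        rw [show v - (NUP1.l : ℂ) - NUP1.l = -(2 * NUP1.l - v) by ring, Complex.cos_neg,
          Complex.sin_neg, div_neg]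
      have c3 : Complex.tan (v - NUP1.l) = -PBQ1.ct (v + 3 * NUP1.l) := by
        have e3 : v + 3 * (NUP1.l : ℂ) = v - NUP1.l + Real.pi / 2 := by
          have : (Real.pi : ℂ) = 8 * NUP1.l := by
            rw [hpi]
            push_cast
            rfl
          rw [this]
          ring
        unfold PBQ1.ct
        rw [e3, Complex.cos_add_pi_div_two, Complex.sin_add_pi_div_two, neg_div, neg_neg,
          Complex.tan_eq_sin_div_cos]
      rw [c1, c2, c3, norm_mul, norm_I, one_mul]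
      have r1 : (2 * NUP1.l - v : ℂ).re = 2 * NUP1.l - v.re := by simp
      have r2 : (v + 3 * NUP1.l : ℂ).re = v.re + 3 * NUP1.l := by simp
      have n1 := b1 v (by linarith) (by linarith)
      have n2 := b1 (2 * NUP1.l - v) (by rw [r1]; linarith) (by rw [r1]; linarith)
      have n3 := b1 (v + 3 * NUP1.l) (by rw [r2]; linarith) (by rw [r2]; linarith)
      have e4 : -2 * -PBQ1.ct (v + 3 * NUP1.l) - PBQ1.ct v - -PBQ1.ct (2 * NUP1.l - v) =
          2 * PBQ1.ct (v + 3 * NUP1.l) - PBQ1.ct v + PBQ1.ct (2 * NUP1.l - v) := by ring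
      rw [e4]
      refine (norm_add_le _ _).trans ?_
      refine (add_le_add_left (norm_sub_le _ _) _).trans ?_
      rw [norm_mul, Complex.norm_ofNat]
      linarith
    refine (Finset.sum_le_sum hi).trans (le_of_eq ?_)
    rw [Finset.sum_const, Finset.card_univ, Fintype.card_fin, nsmul_eq_mul]
  · exact (h.main hu).2.2
  · rw [norm_mul, norm_neg, norm_I, one_mul]
    unfold PBQ1.lamL
    rw [norm_mul, norm_I, one_mul]
    obtain ⟨h1, h2⟩ := h.leg hu
    exact b2 _ h1 h2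

/-- **the three statements of `LogD` on the one body functions** -/
theorem LogD_XXH (h : LZOkH ep b x W p) (c : Bool → ℂ) (g0 s2 : Bool → ℂ → ℂ) {P : NUO.Par}
    {LP : (r : ℕ) → (Fin r → NUO.Xo) → Bool → ℂ → ℂ}
    (dP : ∀ r (O : Fin r → NUO.Xo) s (z : ℂ), z.re ∈ Ks (ep / 4) →
      HasDerivAt (NUP1S.Ab.potC P O s) (LP r O s z * NUP1S.Ab.potC P O s z) z)
    (mP : ∀ r (O : Fin r → NUO.Xo) s, Measurable (LP r O s))
    (bP : ∀ r (O : Fin r → NUO.Xo), ∃ B, ∀ s (z : ℂ), z.re ∈ Ks (ep / 4) → ‖LP r O s z‖ ≤ B) :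
    PBF.LogD (fun a => PBX.XX (c a) (4 / 3 * (1 - ep)) x x (PBX.gP (4 / 3 * (1 - ep)) W) (g0 a)
      (PBX.Lg p p) (s2 a)) P (ep / 4) (fun _ => LZX (4 / 3 * (1 - ep)) x W p) LP where
  dZ a z hz := hasDerivAt_XXH h (c a) (g0 a) (s2 a) hz
  mZ _ := PBLZ.LZX_meas (4 / 3 * (1 - ep)) x W p
  bZ := by
    obtain ⟨B, hB⟩ := LZX_bdH h
    exact ⟨B, fun _ z hz => hB z hz⟩
  dP := dP
  mP := mP
  bP := bP

end std

end ISLH

end
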