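import Pool.Agent.PB.RowsH
import Pool.Agent.PB.FNeq
import Pool.Agent.PB.Mst0
import Pool.Agent.ISE.En

/-!
# The regular function with any rows (the same in both groups) and the ends `(e, -e)` (helper76)

* `RE x β ex ex0 = PBX.RX β x ee (-ee) ex ex0`; `RE_Ok`, `REq_RE`;
* `thE_ee`, `thE_sw`, `thS_sw`: the ends as a spectator; they are symmetric in the two species:
  **`RE_Ys`**, `RE_Y`;
* `kE x r w`: prefactor of a half quantum with own end `r` (other end `-r`); `RE_KF`, `RE_KF'`;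
* `preWW_RE`; `RE_one`, `RE_str`, `RE_T`: the one body functions of the class `W W`, literally.
-/

set_option autoImplicit false
set_option linter.unusedSectionVars false
set_option linter.unusedVariables false

noncomputable section

open Complex MeasureTheory

namespace ISE

open NUP1 NUP1S NUP1.Bd NURow
open NUP1.Leg (thE cc kap Ck Dk)
open PBX (RD RX RX_Ok REq_RX RX_KF RX_KF' RX_X RX_Y thE_ends Lg thE_Lg thS ph gP Rws XX TT)
open PBR (REq RZW)
open PBR (preWW ZWW)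

variable [En] {m : ℕ}

/-- **rows `x` in both groups, ends `(e, -e)`**, standard cutoffs -/
def RE (x : Fin m → ℂ) (β : ℝ) (ex ex0 : List ℂ) : RD m := RX β x ee (-ee) ex ex0

theorem ee_abs : |(ee).re| ≤ l / 2 := e_abs

theorem nee_abs : |(-ee).re| ≤ l / 2 := by
  rw [neg_re, abs_neg]
  exact e_abs

theorem RE_Ok {x : Fin m → ℂ} {β : ℝ} {ex ex0 : List ℂ} (hβ : 0 < β) (hβ' : β ≤ 4 / 3)
    (hx : Rws x) (nx : ∀ i, (x i).re ≠ l / 4) (hex : ∀ w ∈ ex, |w.re| ≤ l / 2)
    (hex0 : ∀ w ∈ ex0, |w.re| ≤ l / 2) : (RE x β ex ex0).Ok :=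
  RX_Ok hβ hβ' hx nx ee_abs nee_abs hex hex0

theorem REq_RE {x : Fin m → ℂ} {β : ℝ} {ex ex0 : List ℂ} (hex : ∀ w ∈ ex, |w.re| ≤ l / 2) :
    REq (RE x β ex ex0) ex ex0 (2 * Real.cos l) := REq_RX hex

/-! ### the ends -/

theorem thE_sw (p q u : ℂ) : thE p p q q u = thE q q p p u := by
  rw [thE_ends, thE_ends, mul_comm]

theorem thS_sw (p q u : ℂ) : thS p p q q u = thS q q p p u := by
  unfold PBX.thS
  rw [thE_sw p q, thE_sw p q]

/-- **the ends `(e, -e)` as a spectator** -/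
theorem thE_ee (u : ℂ) : thE ee ee (-ee) (-ee) u =
    (sin (u - ee + 3 * l) / sin (u - ee - 2 * l)) * (sin (u + ee + 3 * l) / sin (u + ee - 2 * l)) := by
  rw [thE_ends, sub_neg_eq_add]

/-- the same in the notation of the legs -/
theorem thE_eeL (u : ℂ) : thE ee ee (-ee) (-ee) u = Lg ee ee u * Lg (-ee) (-ee) u := thE_Lg _ _ _ _ _

section

variable (x : Fin m → ℂ) (β : ℝ) (ex ex0 : List ℂ)

/-- **the two species have the same one body functions** -/
theorem RE_Ys (s1 s2 : ℂ → ℂ) : (RE x β ex ex0).Ys s1 s2 = (RE x β ex ex0).Xs s1 s2 := by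
  show XX (cc m) β x x (gP β ex) (gP (4 / 3) ex0) (fun u => thE (-ee) (-ee) ee ee u * s1 u)
      (fun w => thS (-ee) (-ee) ee ee w * s2 w) =
    XX (cc m) β x x (gP β ex) (gP (4 / 3) ex0) (fun u => thE ee ee (-ee) (-ee) u * s1 u)
      (fun w => thS ee ee (-ee) (-ee) w * s2 w)
  congr 1
  · funext u
    rw [thE_sw]
  · funext w
    rw [thS_sw]

theorem RE_Y : (RE x β ex ex0).Y = (RE x β ex ex0).X := by
  show XX (cc m) β x x (gP β ex) (gP (4 / 3) ex0) (thE (-ee) (-ee) ee ee)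
      (thS (-ee) (-ee) ee ee) =
    XX (cc m) β x x (gP β ex) (gP (4 / 3) ex0) (thE ee ee (-ee) (-ee)) (thS ee ee (-ee) (-ee))
  congr 1
  · funext u
    rw [thE_sw]
  · funext w
    rw [thS_sw]

/-! ### half quanta -/

/-- **prefactor of a half quantum**, own end `r`, other end `-r` -/
def kE (r w : ℂ) : ℂ := kap (w - r) * sin (w + r + 3 * l) * ∏ i, (sin (w - x i + 3 * l) / sin (w - x i))

theorem RE_KF (w : ℂ) : (RE x β ex ex0).KF w = kE x ee w := by
  unfold RE kE
  rw [RX_KF, sub_neg_eq_add]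

theorem RE_KF' (w : ℂ) : (RE x β ex ex0).KF' w = kE x (-ee) w := by
  unfold RE kE
  rw [RX_KF', sub_eq_add_neg w ee]

/-- **prefactor of the class `W W`** -/
theorem preWW_RE (y : ℝ × ℝ) : preWW (RE x β ex ex0) y =
    kE x ee (vl (5 / 4 * l) y.1) * kE x (-ee) (vl (5 / 4 * l) y.2) *
      Dk (vl (5 / 4 * l) y.1 - vl (5 / 4 * l) y.2) := by
  unfold PBR.preWW
  rw [RE_KF, RE_KF']

/-! ### the one body functions of the class `W W` -/

theorem RZW_RE_true (w w' : ℂ) : RZW (RE x β ex ex0) w w' true =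
    (RE x β ex ex0).Xs (fun u => Ck (w - u) * Dk (w' - u)) (fun u => CC (w - u) * DD (w' - u)) :=
  (PBX.rxWW (RE x β ex ex0) w w').symm

theorem RZW_RE_false (w w' : ℂ) : RZW (RE x β ex ex0) w w' false =
    (RE x β ex ex0).Ys (fun u => Dk (w - u) * Ck (w' - u)) (fun u => DD (w - u) * CC (w' - u)) :=
  (PBX.ryWW (RE x β ex ex0) w w').symm

/-- **exchange of the species is the exchange of the half quanta** -/
theorem RZW_RE_sw (w w' : ℂ) : RZW (RE x β ex ex0) w w' false = RZW (RE x β ex ex0) w' w true := by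
  rw [RZW_RE_true, RZW_RE_false, RE_Ys]
  congr 1
  · funext u
    rw [mul_comm]
  · funext u
    rw [mul_comm]

/-- one quantum, species X -/
theorem RE_one (w w' u : ℂ) : RZW (RE x β ex ex0) w w' true none u =
    RR (cc m) x x u * ph β x (gP β ex) u * (thE ee ee (-ee) (-ee) u * (Ck (w - u) * Dk (w' - u))) := by
  rw [RZW_RE_true]
  rfl

theorem RE_L (w w' u : ℂ) : RZW (RE x β ex ex0) w w' true (some .L) u =
    RR (cc m) x x u * ph β x (gP β ex) u * (thE ee ee (-ee) (-ee) u * (Ck (w - u) * Dk (w' - u))) := by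
  rw [RZW_RE_true]
  rfl

/-- a string -/
theorem RE_str (w w' u : ℂ) : RZW (RE x β ex ex0) w w' true (some .S) u =
    RR (cc m) x x u * RR (cc m) x x (u - l) * ph (4 / 3) x (gP (4 / 3) ex0) u *
      (thS ee ee (-ee) (-ee) u * (CC (w - u) * DD (w' - u))) := by
  rw [RZW_RE_true]
  rfl

theorem RE_T (w w' u : ℂ) : RZW (RE x β ex ex0) w w' true (some .T) u =
    TT (cc m) β (4 / 3) x x (gP β ex) (gP (4 / 3) ex0) u *
      (thS ee ee (-ee) (-ee) u * (CC (w - u) * DD (w' - u))) := by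
  rw [RZW_RE_true]
  rfl

/-! ### the family of the legs, rows `x` -/

theorem ZL_one (z u : ℂ) (b : Bool) : PBX.ZL β x ex ex0 z b none u =
    RR (cc m) x x u * ph β x (gP β ex) u * Lg z z u := rfl

theorem ZL_L (z u : ℂ) (b : Bool) : PBX.ZL β x ex ex0 z b (some .L) u =
    RR (cc m) x x u * ph β x (gP β ex) u * Lg z z u := rfl

theorem ZL_str (z u : ℂ) (b : Bool) : PBX.ZL β x ex ex0 z b (some .S) u =
    RR (cc m) x x u * RR (cc m) x x (u - l) * ph (4 / 3) x (gP (4 / 3) ex0) u *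
      (Lg z z u * Lg z z (u - l)) := rfl

theorem ZL_T (z u : ℂ) (b : Bool) : PBX.ZL β x ex ex0 z b (some .T) u =
    TT (cc m) β (4 / 3) x x (gP β ex) (gP (4 / 3) ex0) u * (Lg z z u * Lg z z (u - l)) := rfl

/-- **regular = legs times a ratio**, kind by kind: the rows and the cutoffs cancel -/
theorem RE_of_ratio {w w' z u : ℂ} {σ D : ℂ} {k : Option O3}
    (h1 : (k = none ∨ k = some .L) →
      thE ee ee (-ee) (-ee) u * (Ck (w - u) * Dk (w' - u)) = Lg z z u * (σ * D))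
    (h2 : (k = some .S ∨ k = some .T) →
      thS ee ee (-ee) (-ee) u * (CC (w - u) * DD (w' - u)) = Lg z z u * Lg z z (u - l) * (σ * D)) :
    RZW (RE x β ex ex0) w w' true k u = σ * PBX.ZL β x ex ex0 z true k u * D := by
  rcases k with _ | (_ | _ | _)
  · rw [RE_one, ZL_one, h1 (Or.inl rfl)]
    ring
  · rw [RE_L, ZL_L, h1 (Or.inr rfl)]
    ring
  · rw [RE_str, ZL_str, h2 (Or.inl rfl)]
    ring
  · rw [RE_T, ZL_T, h2 (Or.inr rfl)]
    ring

end

/-- the landed case: rows `0`, `e = 0` -/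
theorem RE_zero (h : En.e = 0) (β : ℝ) (ex ex0 : List ℂ) :
    RE (fun _ : Fin m => (0 : ℂ)) β ex ex0 = PBX.R0 m β ex ex0 := by
  have h1 : (ee : ℂ) = 0 := by
    unfold ee
    rw [h, ofReal_zero]
  unfold RE
  rw [h1, neg_zero]
  rfl

end ISE

end
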