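import Pool.Agent.PB.ExMix

/-!
# The rows `(l / 2, - l / 2)^b`, `k = 2 b + 1` (helper92)

`xH k : Fin (k - 1) → ℂ` : the first `(k - 1) / 2` rows are `l / 2`, the others `- l / 2`.

* `xH_rws`, `xH_im`, `xH_nx`, `xH_re`: real rows, `|x| = l / 2`;
* `prod_xH`, `sum_xH` : products and sums over the rows (`k` odd);
* `xH_neg` : symmetric under `x → - x`.
-/

set_option autoImplicit false

noncomputable section

open Complex

namespace PBH

open NUP1.Bd

/-- the rows `(l / 2, - l / 2)^b` -/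
def xH (k : ℕ) (i : Fin (k - 1)) : ℂ :=
  if i.val < (k - 1) / 2 then (NUP1.l : ℂ) / 2 else -((NUP1.l : ℂ) / 2)

theorem xH_val (k : ℕ) (i : Fin (k - 1)) :
    xH k i = (NUP1.l : ℂ) / 2 ∨ xH k i = -((NUP1.l : ℂ) / 2) := by
  unfold xH
  split_ifs
  · exact Or.inl rfl
  · exact Or.inr rfl

theorem half_re : ((NUP1.l : ℂ) / 2).re = NUP1.l / 2 := by
  rw [show (NUP1.l : ℂ) / 2 = ((NUP1.l / 2 : ℝ) : ℂ) by push_cast; rfl, ofReal_re]

theorem half_im : ((NUP1.l : ℂ) / 2).im = 0 := by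
  rw [show (NUP1.l : ℂ) / 2 = ((NUP1.l / 2 : ℝ) : ℂ) by push_cast; rfl, ofReal_im]

theorem xH_re (k : ℕ) (i : Fin (k - 1)) : |(xH k i).re| = NUP1.l / 2 := by
  have hl := NUP1.Bd.l_pos
  rcases xH_val k i with h | h
  · rw [h, half_re, abs_of_pos (by linarith)]
  · rw [h, neg_re, half_re, abs_neg, abs_of_pos (by linarith)]

theorem xH_im (k : ℕ) (i : Fin (k - 1)) : (xH k i).im = 0 := by
  rcases xH_val k i with h | h
  · rw [h, half_im]
  · rw [h, neg_im, half_im, neg_zero]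

theorem xH_rws (k : ℕ) : PBX.Rws (xH k) := fun i => (xH_re k i).le

theorem xH_nx (k : ℕ) (i : Fin (k - 1)) : (xH k i).re ≠ NUP1.l / 4 := by
  have hl := NUP1.Bd.l_pos
  rcases xH_val k i with h | h
  · rw [h, half_re]
    intro h1
    linarith
  · rw [h, neg_re, half_re]
    intro h1
    linarith

/-- the real parameter -/
def rH (k : ℕ) (i : Fin (k - 1)) : ℝ :=
  if i.val < (k - 1) / 2 then NUP1.l / 2 else -(NUP1.l / 2)

theorem xH_rH (k : ℕ) (i : Fin (k - 1)) : xH k i = (rH k i : ℂ) := by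
  unfold xH rH
  split_ifs <;> push_cast <;> rfl

theorem rH_abs (k : ℕ) (i : Fin (k - 1)) : |rH k i| = NUP1.l / 2 := by
  have h := xH_re k i
  rwa [xH_rH, ofReal_re] at h

section

variable {M : Type*} [CommMonoid M]

theorem prod_two (b : ℕ) (g : ℕ → M) (a c : M) (h1 : ∀ i < b, g i = a)
    (h2 : ∀ i, b ≤ i → g i = c) : ∏ i ∈ Finset.range (b + b), g i = a ^ b * c ^ b := by
  rw [Finset.prod_range_add, Finset.prod_congr rfl fun i hi => h1 i (Finset.mem_range.1 hi),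
    Finset.prod_congr rfl fun i _ => h2 (b + i) (Nat.le_add_right b i)]
  simp

/-- products over the rows -/
theorem prod_xH {k : ℕ} (hk : Odd k) (f : ℂ → M) :
    ∏ i, f (xH k i) = f ((NUP1.l : ℂ) / 2) ^ ((k - 1) / 2) *
      f (-((NUP1.l : ℂ) / 2)) ^ ((k - 1) / 2) := by
  obtain ⟨b, rfl⟩ := hk
  have e : 2 * b + 1 - 1 = b + b := by omega
  have e2 : (2 * b + 1 - 1) / 2 = b := by omega
  have h := Fin.prod_univ_eq_prod_range (fun j : ℕ => f (if j < (2 * b + 1 - 1) / 2 then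
    (NUP1.l : ℂ) / 2 else -((NUP1.l : ℂ) / 2))) (2 * b + 1 - 1)
  unfold xH
  rw [h, e2, e]
  refine prod_two b _ _ _ (fun i hi => ?_) fun i hi => ?_
  · rw [if_pos hi]
  · rw [if_neg (not_lt.2 hi)]

end

/-- sums over the rows -/
theorem sum_xH {k : ℕ} (hk : Odd k) (f : ℂ → ℂ) :
    ∑ i, f (xH k i) = (((k - 1) / 2 : ℕ) : ℂ) * (f ((NUP1.l : ℂ) / 2) +
      f (-((NUP1.l : ℂ) / 2))) := by
  have h := prod_xH (M := Multiplicative ℂ) hk fun z => Multiplicative.ofAdd (f z)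
  rw [← ofAdd_sum, ← ofAdd_nsmul, ← ofAdd_nsmul, ← ofAdd_add] at h
  have h2 := Multiplicative.ofAdd.injective h
  rw [h2, nsmul_eq_mul, nsmul_eq_mul]
  ring

/-- sums over the rows, real version -/
theorem sum_rH {k : ℕ} (hk : Odd k) (f : ℝ → ℝ) :
    ∑ i, f (rH k i) = (((k - 1) / 2 : ℕ) : ℝ) * (f (NUP1.l / 2) + f (-(NUP1.l / 2))) := by
  have h := sum_xH hk fun z => ((f z.re : ℝ) : ℂ)
  have e : ∀ i, (xH k i).re = rH k i := fun i => by rw [xH_rH, ofReal_re]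
  simp only [e, half_re, neg_re] at h
  exact_mod_cast h

/-- symmetric rows -/
theorem xH_neg {M : Type*} [CommMonoid M] {k : ℕ} (hk : Odd k) (f : ℂ → M) :
    ∏ i, f (-xH k i) = ∏ i, f (xH k i) := by
  rw [prod_xH hk f, prod_xH hk fun z => f (-z), neg_neg, mul_comm]

theorem two_b {k : ℕ} (hk : Odd k) : 2 * (((k - 1) / 2 : ℕ) : ℝ) = (k : ℝ) - 1 := by
  obtain ⟨b, rfl⟩ := hk
  have e2 : (2 * b + 1 - 1) / 2 = b := by omega
  rw [e2]
  push_cast
  ring

end PBH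

end
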