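import Pool.Agent.PB.TRMean
import Pool.Agent.ISE.En

/-! Copy of `Pool.Agent.PB.TRMean` for the ends `(e, -e)` (class `ISE.En`): only the declarations which depend on the ends. -/

set_option autoImplicit false
set_option linter.unusedSectionVars false

noncomputable section

open MeasureTheory Filter Topology Set Complex

namespace PBTnE

open PBTn ISE

variable [ISE.En]

open NUMF (P Pc l)
open Pool.Agent.PB (fS LSn LCD half_flat leg_mf l_eq)

/-- sum over the species of the logarithm of minus the ratio -/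
def GM (z w w' : ℂ) (s : ℝ) : ℂ :=
  (-2 * fS (ee + l - s * I) + -2 * fS (-ee + l - s * I)) + 2 * fS (z + l - s * I) + (LCD (w - l - s * I) + LCD (w' - l - s * I))

/-- the mean field value of the two ends in one species -/
def cEn : ℂ := PBR.rh ee ^ 2 / (sin (ee + 2 * l) * sin (ee + 3 * l)) *
  (PBR.rh ee ^ 2 / (sin (-ee + 2 * l) * sin (-ee + 3 * l)))

/-- the mean field value -/
def EM (z w w' : ℂ) : ℂ := cEn ^ 2 *
  (sin w / sin (w + 3 * l)) * (sin w' / sin (w' + 3 * l)) *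
    (sin (z + 2 * l) * sin (z + 3 * l) / PBR.rh z ^ 2) ^ 2

theorem GM_mean {z w w' : ℂ} (hz0 : -l < z.re) (hz1 : z.re < 4 * l) (hw0 : l < w.re) (hw1 : w.re < 4 * l)
    (hw0' : l < w'.re) (hw1' : w'.re < 4 * l) :
    Integrable (fun s : ℝ => (P s : ℂ) * GM z w w' s) ∧
    exp (∫ s : ℝ, (P s : ℂ) * GM z w w' s) = EM z w w' := by
  have hl := NUMF.l_pos
  have e0 := En.h0
  have e1 := e_le
  obtain ⟨a1, a2⟩ := leg_mean (z := ee) (by rw [ee_re]; linarith) (by rw [ee_re]; linarith)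
  obtain ⟨m1, m2⟩ := leg_mean (z := -ee) (by rw [neg_re, ee_re]; linarith)
    (by rw [neg_re, ee_re]; linarith)
  rw [PBR.rh_neg] at m2
  obtain ⟨b1, b2⟩ := leg_mean hz0 hz1
  obtain ⟨c1, c2⟩ := half_mean hw0 hw1
  obtain ⟨d1, d2⟩ := half_mean hw0' hw1'
  have e : (fun s : ℝ => (P s : ℂ) * GM z w w' s) = fun s : ℝ =>
      ((-2 * ((P s : ℂ) * fS (ee + l - s * I)) + -2 * ((P s : ℂ) * fS (-ee + l - s * I))) +
        2 * ((P s : ℂ) * fS (z + l - s * I))) +
        ((P s : ℂ) * LCD (w - l - s * I) + (P s : ℂ) * LCD (w' - l - s * I)) := by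
    funext s
    unfold GM
    ring
  have i0 := (a1.const_mul (-2)).add (m1.const_mul (-2))
  have i1 := i0.add (b1.const_mul 2)
  have i2 := c1.add d1
  rw [e]
  refine ⟨i1.add i2, ?_⟩
  have s1 := integral_add i1 i2
  have s2 := integral_add i0 (b1.const_mul 2)
  have s4 := integral_add (a1.const_mul (-2)) (m1.const_mul (-2))
  have s3 := integral_add c1 d1
  simp only [Pi.add_apply] at s1 s2 s3 s4
  rw [s1, s2, s3, s4, integral_const_mul, integral_const_mul, integral_const_mul, exp_add, exp_add,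
    exp_add, exp_add, c2, d2]
  set A := ∫ s : ℝ, (P s : ℂ) * fS (ee + l - s * I)
  set A' := ∫ s : ℝ, (P s : ℂ) * fS (-ee + l - s * I)
  set B := ∫ s : ℝ, (P s : ℂ) * fS (z + l - s * I)
  rw [show -2 * A = -((2 : ℕ) * A) by push_cast; ring, show -2 * A' = -((2 : ℕ) * A') by push_cast; ring,
    show 2 * B = (2 : ℕ) * B by push_cast; ring,
    exp_neg, exp_neg, exp_nat_mul, exp_nat_mul, exp_nat_mul, a2, m2, b2]
  unfold EM cEn
  rw [← inv_pow, inv_div, ← inv_pow, inv_div, mul_pow]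
  ring

/-- the power `m`: the reference value with `m` rows -/
theorem GM_mean_pow {z w w' : ℂ} (hz0 : -l < z.re) (hz1 : z.re < 4 * l) (hw0 : l < w.re)
    (hw1 : w.re < 4 * l) (hw0' : l < w'.re) (hw1' : w'.re < 4 * l) (m : ℕ) :
    exp (-((m : ℂ) * ∫ s : ℝ, (P s : ℂ) * GM z w w' s)) = (EM z w w')⁻¹ ^ m := by
  rw [exp_neg, exp_nat_mul, (GM_mean hz0 hz1 hw0 hw1 hw0' hw1').2, inv_pow]

/-- for any pair of logarithms whose sum is `GM` on the line -/
theorem mean_of {z w w' : ℂ} (hz0 : -l < z.re) (hz1 : z.re < 4 * l) (hw0 : l < w.re)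
    (hw1 : w.re < 4 * l) (hw0' : l < w'.re) (hw1' : w'.re < 4 * l) {D : Bool → ℂ → ℂ}
    (h : ∀ s : ℝ, D true (l + I * s) + D false (l + I * s) = GM z w w' s)
    (h1 : ∀ a, Integrable fun s : ℝ => (P s : ℂ) * D a (l + I * s)) :
    exp (∑ a, ∫ s : ℝ, (P s : ℂ) * D a (l + I * s)) = EM z w w' := by
  rw [Fintype.sum_bool, ← integral_add (h1 true) (h1 false), ← (GM_mean hz0 hz1 hw0 hw1 hw0' hw1').2]
  congr 1
  refine integral_congr_ae (Eventually.of_forall fun s => ?_)
  simp only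
  rw [← h s]
  ring

/-- the same with `m` rows, as an integral of the density `m P` -/
theorem mean_pow {z w w' : ℂ} (hz0 : -l < z.re) (hz1 : z.re < 4 * l) (hw0 : l < w.re)
    (hw1 : w.re < 4 * l) (hw0' : l < w'.re) (hw1' : w'.re < 4 * l) {D : Bool → ℂ → ℂ}
    (h : ∀ s : ℝ, D true (l + I * s) + D false (l + I * s) = GM z w w' s)
    (h1 : ∀ a, Integrable fun s : ℝ => (P s : ℂ) * D a (l + I * s)) (m : ℕ) :
    exp (-∑ a, ∫ s : ℝ, ((m * P s : ℝ) : ℂ) * D a (l + I * s)) = (EM z w w')⁻¹ ^ m := by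
  have e : ∀ a, ∫ s : ℝ, ((m * P s : ℝ) : ℂ) * D a (l + I * s) =
      m * ∫ s : ℝ, (P s : ℂ) * D a (l + I * s) := by
    intro a
    rw [← integral_const_mul]
    refine integral_congr_ae (Eventually.of_forall fun s => ?_)
    simp only
    push_cast
    ring
  simp only [e]
  rw [← Finset.mul_sum, exp_neg, exp_nat_mul, mean_of hz0 hz1 hw0 hw1 hw0' hw1' h h1, inv_pow]

end PBTnE

end
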