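import Pool.Agent.PB.TRsP
import Pool.Agent.NUSea.Inst
import Pool.Agent.PB.LogZ
import Pool.Agent.ISE.RowH

/-!
# Transfer at the rows `xH k`, s-path: the regularised field (helper92)

Copy of `PB/TRsP` for the density `Ph` of the rows `± l / 2` (strip `|Im z| < l / 2`), same names, namespace `PBTsE`.

`seaT n z = n Ph z` (sea of `n` rows), `fldT n q β b z = β b z / (seaT n z + q)`.

* **`rhoH_xH`** : the density of the rows `xH k` is `seaT (k - 1)`, `k` odd;
* `Pc_re_low`, `den_T`: the denominator;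
* `seaF_T`, `fldF_T`: data of `PB.mf_h`, `PB.alg_h`;
* **`fld_min`**: `‖fldT b z‖ ≤ C (B / n) min 1 e^{L - |Re z|}` if `‖β b z‖ ≤ B e^{-(8/3)|Re z|}` and
  `n / q ≤ e^{(8/3) L}`;
* `mulF_T`: `seaT * fldT = β - q fldT`;
* **`rsp_T`**: `‖rsp (mulF seaT fldT) b z - rsp β b z‖ ≤ C q (B / n) (1 + L)`.
-/

set_option autoImplicit false
set_option linter.unusedSectionVars false
set_option linter.unusedVariables false

noncomputable section

open MeasureTheory Set Filter Topology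

namespace PBTsE

open NUMF (l)
open PB (SeaF FldF mulF rsp cV cG)
open PBTs (mn mn_nonneg mn_le_one mn_le int_mn pc_I' ev_strip mul_V_int mul_Kg_int)
open PBQ1 (hr)

/-- the density of the rows `± l / 2` -/
def Ph (z : ℂ) : ℂ := (NUMF.Pc (z + (l / 2 : ℝ) * Complex.I) + NUMF.Pc (z - (l / 2 : ℝ) * Complex.I)) / 2

theorem Ph_eq : Ph = NUSea.Phc := rfl

/-- the sea of `n` rows -/
def seaT (n : ℝ) (z : ℂ) : ℂ := n * Ph z

/-- the regularised field -/
def fldT (n q : ℝ) (β : Bool → ℂ → ℂ) (b : Bool) (z : ℂ) : ℂ := β b z / (seaT n z + q)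

theorem im_p (z : ℂ) : (z + (l / 2 : ℝ) * Complex.I).im = z.im + l / 2 := by simp

theorem im_m (z : ℂ) : (z - (l / 2 : ℝ) * Complex.I).im = z.im - l / 2 := by simp

theorem re_p (z : ℂ) : (z + (l / 2 : ℝ) * Complex.I).re = z.re := by simp

theorem re_m (z : ℂ) : (z - (l / 2 : ℝ) * Complex.I).re = z.re := by simp

theorem im_pm {b : ℝ} {z : ℂ} (hz : |z.im| < b) :
    |(z + (l / 2 : ℝ) * Complex.I).im| < b + l / 2 ∧
      |(z - (l / 2 : ℝ) * Complex.I).im| < b + l / 2 := by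
  have hl := NUMF.l_pos
  rw [im_p, im_m]
  obtain ⟨h1, h2⟩ := abs_lt.1 hz
  exact ⟨abs_lt.2 ⟨by linarith, by linarith⟩, abs_lt.2 ⟨by linarith, by linarith⟩⟩

theorem im_pm' {b : ℝ} {z : ℂ} (hz : |z.im| ≤ b) :
    |(z + (l / 2 : ℝ) * Complex.I).im| ≤ b + l / 2 ∧
      |(z - (l / 2 : ℝ) * Complex.I).im| ≤ b + l / 2 := by
  have hl := NUMF.l_pos
  rw [im_p, im_m]
  obtain ⟨h1, h2⟩ := abs_le.1 hz
  exact ⟨abs_le.2 ⟨by linarith, by linarith⟩, abs_le.2 ⟨by linarith, by linarith⟩⟩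

theorem Ph_diff {z : ℂ} (hz : |z.im| < l / 2) : DifferentiableAt ℂ Ph z := by
  obtain ⟨h1, h2⟩ := im_pm hz
  rw [add_halves] at h1 h2
  have d1 : DifferentiableAt ℂ (fun z : ℂ => NUMF.Pc (z + (l / 2 : ℝ) * Complex.I)) z :=
    (NUMF.Pc_diff h1).comp z (f := fun z : ℂ => z + (l / 2 : ℝ) * Complex.I) (by fun_prop)
  have d2 : DifferentiableAt ℂ (fun z : ℂ => NUMF.Pc (z - (l / 2 : ℝ) * Complex.I)) z :=
    (NUMF.Pc_diff h2).comp z (f := fun z : ℂ => z - (l / 2 : ℝ) * Complex.I) (by fun_prop)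
  exact (d1.add d2).div_const 2

theorem Ph_meas : Measurable Ph := by
  have h1 : Measurable NUMF.Pc := by
    unfold NUMF.Pc
    fun_prop
  exact ((h1.comp (measurable_id.add_const _)).add (h1.comp (measurable_id.sub_const _))).div_const 2

theorem Ph_bound {b : ℝ} (hb0 : 0 ≤ b) (hb : b < l / 2) : ∃ C : ℝ, 0 ≤ C ∧ ∀ z : ℂ, |z.im| ≤ b →
    ‖Ph z‖ ≤ C * Real.exp (-(8 / 3 * |z.re|)) := by
  have hb' : b + l / 2 < NUMF.l := by linarith
  refine ⟨|16 / (√3 * Real.pi * NUMF.kb (b + l / 2))|, abs_nonneg _, fun z hz => ?_⟩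
  obtain ⟨h1, h2⟩ := im_pm' hz
  have k1 := NUMF.Pc_bound hb' h1
  have k2 := NUMF.Pc_bound hb' h2
  rw [re_p] at k1
  rw [re_m] at k2
  have e : ∀ x : ℝ, 16 / (√3 * Real.pi * NUMF.kb (b + l / 2)) * Real.exp (-(8 / 3) * |x|) ≤
      |16 / (√3 * Real.pi * NUMF.kb (b + l / 2))| * Real.exp (-(8 / 3 * |x|)) := by
    intro x
    rw [neg_mul]
    exact mul_le_mul_of_nonneg_right (le_abs_self _) (Real.exp_pos _).le
  have e1 := e z.re
  unfold Ph
  rw [norm_div, Complex.norm_ofNat]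
  have k3 := norm_add_le (NUMF.Pc (z + (l / 2 : ℝ) * Complex.I))
    (NUMF.Pc (z - (l / 2 : ℝ) * Complex.I))
  linarith

/-- **lower bound of the real part of the density** -/
theorem Ph_re_low {b : ℝ} (hb0 : 0 ≤ b) (hb : b < l / 2) : ∃ c : ℝ, 0 < c ∧ c ≤ 1 ∧ ∀ z : ℂ,
    |z.im| ≤ b → c * Real.exp (-(8 / 3 * |z.re|)) ≤ (Ph z).re := by
  have hl := NUMF.l_pos
  obtain ⟨c, hc, hc1, H⟩ := PBTs.Pc_re_low (b := b + l / 2) (by linarith) (by linarith)
  refine ⟨c, hc, hc1, fun z hz => ?_⟩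
  obtain ⟨h1, h2⟩ := im_pm' hz
  have k1 := H _ h1
  have k2 := H _ h2
  rw [re_p] at k1
  rw [re_m] at k2
  have e : (Ph z).re = ((NUMF.Pc (z + (l / 2 : ℝ) * Complex.I)).re +
      (NUMF.Pc (z - (l / 2 : ℝ) * Complex.I)).re) / 2 := by
    unfold Ph
    rw [show (2 : ℂ) = ((2 : ℝ) : ℂ) by push_cast; rfl, Complex.div_ofReal_re, Complex.add_re]
  rw [e]
  linarith

/-- **the density of the rows `xH k`** -/
theorem rhoH_xH {k : ℕ} (hk : Odd k) (z : ℂ) :
    PBLZ.rhoH (PBH.xH k) z = seaT ((k - 1 : ℕ) : ℝ) z := by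
  unfold PBLZ.rhoH
  rw [PBH.sum_xH hk fun x => NUMF.Pc (z - hr x)]
  have e1 : hr ((NUP1.l : ℂ) / 2) = -((l / 2 : ℝ) * Complex.I) := by
    unfold PBQ1.hr
    have : ((NUP1.l : ℝ) : ℂ) = ((l : ℝ) : ℂ) := rfl
    rw [this]
    push_cast
    ring
  have e2 : hr (-((NUP1.l : ℂ) / 2)) = (l / 2 : ℝ) * Complex.I := by
    unfold PBQ1.hr
    have : ((NUP1.l : ℝ) : ℂ) = ((l : ℝ) : ℂ) := rfl
    rw [this]
    push_cast
    ring
  rw [e1, e2, sub_neg_eq_add]
  have h2 := PBH.two_b hk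
  have h3 : ((k - 1 : ℕ) : ℝ) = (k : ℝ) - 1 := by
    obtain ⟨b, rfl⟩ := hk
    simp
  unfold seaT Ph
  rw [h3, ← h2]
  push_cast
  ring

theorem den_T {b : ℝ} (hb0 : 0 ≤ b) (hb : b < l / 2) : ∃ c : ℝ, 0 < c ∧ c ≤ 1 ∧ ∀ n q : ℝ, 0 ≤ n →
    0 ≤ q → ∀ z : ℂ, |z.im| ≤ b →
    c * n * Real.exp (-(8 / 3 * |z.re|)) + q ≤ ‖seaT n z + q‖ ∧
    c * n * Real.exp (-(8 / 3 * |z.re|)) ≤ ‖seaT n z‖ := by
  obtain ⟨c, hc, hc1, H⟩ := Ph_re_low hb0 hb
  refine ⟨c, hc, hc1, fun n q hn hq z hz => ?_⟩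
  have h1 := mul_le_mul_of_nonneg_left (H z hz) hn
  have e1 : (seaT n z).re = n * (Ph z).re := by
    unfold seaT
    rw [Complex.re_ofReal_mul]
  constructor
  · refine le_trans ?_ (Complex.re_le_norm _)
    rw [Complex.add_re, e1, Complex.ofReal_re]
    nlinarith
  · refine le_trans ?_ (Complex.re_le_norm _)
    rw [e1]
    nlinarith

theorem seaF_T {b1 : ℝ} (h0 : 0 < b1) (hb : b1 < l / 2) {n : ℝ} (hn : 0 < n) : SeaF b1 (seaT n) := by
  obtain ⟨c, hc, hc1, H⟩ := den_T h0.le hb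
  have hb' : b1 < NUMF.l / 2 := hb
  refine ⟨fun z hz => ?_, fun z hz => ?_, ?_⟩
  · exact (differentiableAt_const _).mul (Ph_diff (hz.trans hb'))
  · have h1 := (H n 0 hn.le le_rfl z hz.le).2
    have h2 : 0 < c * n * Real.exp (-(8 / 3 * |z.re|)) := by positivity
    exact norm_pos_iff.1 (lt_of_lt_of_le h2 h1)
  · obtain ⟨C, hC, hP⟩ := Ph_bound h0.le hb'
    refine ⟨n * C, 8 / 3, by positivity, by norm_num, fun z hz => ?_⟩
    have h1 := hP z hz.le
    unfold seaT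
    rw [norm_mul, Complex.norm_real, Real.norm_eq_abs, abs_of_pos hn, mul_assoc]
    exact mul_le_mul_of_nonneg_left h1 hn.le

section fld

variable {b1 : ℝ} {β : Bool → ℂ → ℂ}

theorem fldT_d (h0 : 0 < b1) (hb : b1 < l / 2) {n q : ℝ} (hn : 0 ≤ n) (hq : 0 < q)
    (hβ : ∀ b (z : ℂ), |z.im| < b1 → DifferentiableAt ℂ (β b) z) (b : Bool) (z : ℂ)
    (hz : |z.im| < b1) : DifferentiableAt ℂ (fldT n q β b) z := by
  obtain ⟨c, hc, hc1, H⟩ := den_T h0.le hb
  have h1 := (H n q hn hq.le z hz.le).1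
  have h2 : 0 ≤ c * n * Real.exp (-(8 / 3 * |z.re|)) := by positivity
  have h3 : seaT n z + q ≠ 0 := norm_pos_iff.1 (by linarith)
  refine (hβ b z hz).div ?_ h3
  have h4 : DifferentiableAt ℂ (seaT n) z := by
    have hb' : b1 < NUMF.l / 2 := hb
    exact (differentiableAt_const _).mul (Ph_diff (hz.trans hb'))
  exact h4.add_const _

theorem fldF_T (h0 : 0 < b1) (hb : b1 < l / 2) {n q B : ℝ} (hn : 0 ≤ n) (hq : 0 < q) (hB : 0 ≤ B)
    (hβ : ∀ b (z : ℂ), |z.im| < b1 → DifferentiableAt ℂ (β b) z)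
    (hβB : ∀ b (z : ℂ), |z.im| < b1 → ‖β b z‖ ≤ B) : FldF b1 (fldT n q β) := by
  refine ⟨fldT_d h0 hb hn hq hβ, B / q, by positivity, fun b z hz => ?_⟩
  obtain ⟨c, hc, hc1, H⟩ := den_T h0.le hb
  have h1 := (H n q hn hq.le z hz.le).1
  have h2 : 0 ≤ c * n * Real.exp (-(8 / 3 * |z.re|)) := by positivity
  unfold fldT
  rw [norm_div]
  exact div_le_div₀ hB (hβB b z hz) hq (by linarith)

end fld

/-- **the size of the regularised field** -/
theorem fld_min {b1 : ℝ} (h0 : 0 < b1) (hb : b1 < l / 2) : ∃ C : ℝ, 1 ≤ C ∧ ∀ n q L B : ℝ, 0 < n →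
    0 < q → 0 ≤ L → n / q ≤ Real.exp (8 / 3 * L) → 0 ≤ B → ∀ β : Bool → ℂ → ℂ,
    (∀ b (z : ℂ), |z.im| < b1 → ‖β b z‖ ≤ B * Real.exp (-(8 / 3 * |z.re|))) →
    ∀ b (z : ℂ), |z.im| < b1 → ‖fldT n q β b z‖ ≤ C * (B / n) * mn L z.re := by
  obtain ⟨c, hc, hc1, H⟩ := den_T h0.le hb
  refine ⟨1 / c, (one_le_div hc).2 hc1, fun n q L B hn hq hL hnq hB β hβ b z hz => ?_⟩
  have h1 := (H n q hn.le hq.le z hz.le).1
  have h2 := hβ b z hz
  obtain ⟨E, hE⟩ : ∃ E, E = Real.exp (-(8 / 3 * |z.re|)) := ⟨_, rfl⟩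
  have hE0 : 0 < E := by rw [hE]; exact Real.exp_pos _
  rw [← hE] at h1 h2
  have hd : 0 < c * n * E := by positivity
  have k1 : ‖fldT n q β b z‖ ≤ 1 / c * (B / n) := by
    unfold fldT
    rw [norm_div]
    calc ‖β b z‖ / ‖seaT n z + q‖ ≤ (B * E) / (c * n * E) :=
          div_le_div₀ (by positivity) h2 hd (by linarith)
      _ = 1 / c * (B / n) := by field_simp
  have k2 : ‖fldT n q β b z‖ ≤ B * E / q := by
    unfold fldT
    rw [norm_div]
    exact div_le_div₀ (by positivity) h2 hq (by linarith)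
  unfold mn
  rcases le_total |z.re| L with h | h
  · rw [min_eq_left (Real.one_le_exp (by linarith)), mul_one]
    exact k1
  · rw [min_eq_right (by
      rw [Real.exp_le_one_iff]
      linarith)]
    refine k2.trans ?_
    have k3 : n * E ≤ q * Real.exp (L - |z.re|) := by
      have e1 : n ≤ q * Real.exp (8 / 3 * L) := by
        rwa [div_le_iff₀ hq, mul_comm] at hnq
      calc n * E ≤ q * Real.exp (8 / 3 * L) * E := mul_le_mul_of_nonneg_right e1 hE0.le
        _ = q * Real.exp (8 / 3 * (L - |z.re|)) := by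
            rw [hE, mul_assoc, ← Real.exp_add]
            congr 2
            ring
        _ ≤ q * Real.exp (L - |z.re|) := by
            refine mul_le_mul_of_nonneg_left (Real.exp_le_exp.2 ?_) hq.le
            linarith
    have k4 : B * E / q ≤ B / n * Real.exp (L - |z.re|) := by
      rw [div_mul_eq_mul_div, div_le_div_iff₀ hq hn]
      calc B * E * n = B * (n * E) := by ring
        _ ≤ B * (q * Real.exp (L - |z.re|)) := mul_le_mul_of_nonneg_left k3 hB
        _ = _ := by ring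
    refine k4.trans ?_
    rw [mul_assoc]
    exact le_mul_of_one_le_left (by positivity) ((one_le_div hc).2 hc1)

theorem mulF_T {b1 : ℝ} (h0 : 0 < b1) (hb : b1 < l / 2) {n q : ℝ} (hn : 0 ≤ n) (hq : 0 < q)
    (β : Bool → ℂ → ℂ) (b : Bool) {z : ℂ} (hz : |z.im| < b1) :
    mulF (seaT n) (fldT n q β) b z = β b z - q * fldT n q β b z := by
  obtain ⟨c, hc, hc1, H⟩ := den_T h0.le hb
  have h1 := (H n q hn hq.le z hz.le).1
  have h2 : 0 ≤ c * n * Real.exp (-(8 / 3 * |z.re|)) := by positivity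
  have h3 : seaT n z + q ≠ 0 := norm_pos_iff.1 (by linarith)
  unfold mulF fldT
  field_simp
  ring

/-! ### the response -/

/-- **the response of the regularised field** -/
theorem rsp_T {b0 b1 : ℝ} (h0 : 0 ≤ b0) (h01 : b0 < b1) (hb : b1 < l / 2) : ∃ C : ℝ, 1 ≤ C ∧
    ∀ n q L B : ℝ, 0 < n → 0 < q → 0 ≤ L → n / q ≤ Real.exp (8 / 3 * L) → 0 ≤ B →
    ∀ β : Bool → ℂ → ℂ, (∀ b, Measurable (β b)) →
    (∀ b (z : ℂ), |z.im| < b1 → DifferentiableAt ℂ (β b) z) →
    (∀ b (z : ℂ), |z.im| < b1 → ‖β b z‖ ≤ B * Real.exp (-(8 / 3 * |z.re|))) →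
    ∀ b (z : ℂ), |z.im| ≤ b0 →
    ‖rsp (mulF (seaT n) (fldT n q β)) b z - rsp β b z‖ ≤ C * q * (B / n) * (1 + L) := by
  have hb1 : 0 < b1 := lt_of_le_of_lt h0 h01
  obtain ⟨C1, hC1, H1⟩ := fld_min hb1 hb
  obtain ⟨IV, hIV⟩ : ∃ IV, IV = ∫ u, |NUMF.V u| := ⟨_, rfl⟩
  have hIV0 : 0 ≤ IV := by
    rw [hIV]
    exact integral_nonneg fun u => abs_nonneg _
  obtain ⟨D, hD⟩ : ∃ D, D = 1 / ((b1 - b0) / 2) := ⟨_, rfl⟩
  have hD0 : 0 < D := by
    rw [hD]
    have : 0 < (b1 - b0) / 2 := by linarith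
    positivity
  refine ⟨C1 * D * IV + 9 * (2 * C1 * (2 * Real.exp 1)) + 1, by
    have : 0 ≤ C1 * D * IV + 9 * (2 * C1 * (2 * Real.exp 1)) := by positivity
    linarith, ?_⟩
  intro n q L B hn hq hL hnq hB β hm hd hβ b z hz
  obtain ⟨X, hX⟩ : ∃ X, X = fldT n q β := ⟨_, rfl⟩
  have hXd : ∀ b (z : ℂ), |z.im| < b1 → DifferentiableAt ℂ (X b) z := by
    rw [hX]
    exact fldT_d hb1 hb hn.le hq hd
  have hXb : ∀ b (z : ℂ), |z.im| < b1 → ‖X b z‖ ≤ C1 * (B / n) * mn L z.re := by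
    rw [hX]
    exact H1 n q L B hn hq hL hnq hB β hβ
  have hXm : ∀ b, Measurable (X b) := by
    intro b
    rw [hX]
    have hP : Measurable (seaT n) := by
      unfold seaT
      exact Ph_meas.const_mul _
    exact (hm b).div (hP.add_const _)
  have hmul : ∀ b (z : ℂ), |z.im| < b1 → mulF (seaT n) X b z = β b z - q * X b z := by
    intro b z hz
    rw [hX]
    exact mulF_T hb1 hb hn.le hq β b hz
  rw [← hX]
  obtain ⟨S, hS⟩ : ∃ S, S = C1 * (B / n) := ⟨_, rfl⟩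
  have hS0 : 0 ≤ S := by
    rw [hS]
    positivity
  have hz1 : |z.im| < b1 := lt_of_le_of_lt hz h01
  have him : ∀ u : ℝ, |(z - u).im| < b1 := fun u => by simpa using hz1
  -- derivatives
  have hder : ∀ u : ℝ, deriv (mulF (seaT n) X b) (z - u) =
      deriv (β b) (z - u) - q * deriv (X b) (z - u) := by
    intro u
    have e1 : mulF (seaT n) X b =ᶠ[𝓝 (z - u)] fun w => β b w - q * X b w :=
      (ev_strip (him u)).mono fun w hw => hmul b w hw
    rw [e1.deriv_eq]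
    have h1 : HasDerivAt (fun w => β b w - q * X b w)
        (deriv (β b) (z - u) - q * deriv (X b) (z - u)) (z - u) :=
      (hd b _ (him u)).hasDerivAt.sub ((hXd b _ (him u)).hasDerivAt.const_mul (q : ℂ))
    exact h1.deriv
  -- bounds of the derivatives
  have bX : ∀ w : ℂ, |w.im| ≤ b0 → ‖deriv (X b) w‖ ≤ S * D := by
    intro w hw
    have h1 := PB.strip_deriv (f := X b) (b0 := b0) (b1 := b1) (A := S) (c := 0) h01 le_rfl hS0
      (hXd b) (fun w hw => by
        rw [zero_mul, neg_zero, Real.exp_zero, mul_one, hS]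
        exact (hXb b w hw).trans (mul_le_of_le_one_right (by positivity) (mn_le_one _ _))) hw
    rw [zero_mul, zero_mul, neg_zero, Real.exp_zero, mul_one, mul_one] at h1
    rw [hD, mul_one_div]
    exact h1
  have bβ : ∀ w : ℂ, |w.im| ≤ b0 → ‖deriv (β b) w‖ ≤ B * D := by
    intro w hw
    have h1 := PB.strip_deriv (f := β b) (b0 := b0) (b1 := b1) (A := B) (c := 0) h01 le_rfl hB
      (hd b) (fun w hw => by
        rw [zero_mul, neg_zero, Real.exp_zero, mul_one]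
        refine (hβ b w hw).trans (mul_le_of_le_one_right hB ?_)
        rw [Real.exp_le_one_iff]
        have := abs_nonneg w.re
        linarith) hw
    rw [zero_mul, zero_mul, neg_zero, Real.exp_zero, mul_one, mul_one] at h1
    rw [hD, mul_one_div]
    exact h1
  obtain ⟨iX, nX⟩ := mul_V_int (measurable_deriv (X b)) bX hz
  obtain ⟨iβ, -⟩ := mul_V_int (measurable_deriv (β b)) bβ hz
  have eV : cV (deriv (mulF (seaT n) X b)) z = cV (deriv (β b)) z - q * cV (deriv (X b)) z := by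
    unfold cV
    rw [← integral_const_mul, ← integral_sub iβ (iX.const_mul _)]
    refine integral_congr_ae (Eventually.of_forall fun u => ?_)
    simp only
    rw [hder u]
    ring
  -- the cross kernel
  have hfX : ∀ u : ℝ, ‖X b (z - u) - X (!b) (z - u)‖ ≤ 2 * S * mn L (z.re - u) := by
    intro u
    have e1 : (z - u).re = z.re - u := by simp
    have h1 := hXb b _ (him u)
    have h2 := hXb (!b) _ (him u)
    rw [e1, ← hS] at h1 h2
    refine (norm_sub_le _ _).trans ?_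
    linarith
  have hfβ : ∀ u : ℝ, ‖β b (z - u) - β (!b) (z - u)‖ ≤
      2 * B * Real.exp (-(8 / 3 * |z.re - u|)) := by
    intro u
    have e1 : (z - u).re = z.re - u := by simp
    have h1 := hβ b _ (him u)
    have h2 := hβ (!b) _ (him u)
    rw [e1] at h1 h2
    refine (norm_sub_le _ _).trans ?_
    linarith
  obtain ⟨im1, im2⟩ := int_mn hL z.re
  have ie : Integrable fun u : ℝ => Real.exp (-(8 / 3 * |z.re - u|)) := by
    have := (NUMF.int_exp_abs (by norm_num : (0 : ℝ) < 8 / 3)).comp_sub_left z.re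
    simpa only [neg_mul] using this
  obtain ⟨jX, lX⟩ := mul_Kg_int (f := fun w => X b w - X (!b) w)
    ((hXm b).sub (hXm (!b))) (im1.const_mul (2 * S)) hfX
  obtain ⟨jβ, -⟩ := mul_Kg_int (f := fun w => β b w - β (!b) w) 
    ((hm b).sub (hm (!b))) (ie.const_mul (2 * B)) hfβ
  have eG : cG (fun w => mulF (seaT n) X b w - mulF (seaT n) X (!b) w) z =
      cG (fun w => β b w - β (!b) w) z - q * cG (fun w => X b w - X (!b) w) z := by
    unfold cG
    rw [← integral_const_mul, ← integral_sub jβ (jX.const_mul _)]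
    refine integral_congr_ae (Eventually.of_forall fun u => ?_)
    simp only
    rw [hmul b _ (him u), hmul (!b) _ (him u)]
    ring
  have e : rsp (mulF (seaT n) X) b z - rsp β b z =
      q * (cV (deriv (X b)) z + cG (fun w => X b w - X (!b) w) z) := by
    unfold rsp
    rw [eV, eG]
    ring
  rw [e, norm_mul, Complex.norm_real, Real.norm_eq_abs, abs_of_pos hq]
  have k1 : ‖cV (deriv (X b)) z‖ ≤ S * D * IV := by
    rw [hIV]
    exact nX
  have k2 : ‖cG (fun w => X b w - X (!b) w) z‖ ≤ 9 * (2 * S * (2 * Real.exp 1 * (1 + L))) := by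
    refine lX.trans ?_
    rw [integral_const_mul]
    refine mul_le_mul_of_nonneg_left ?_ (by norm_num)
    exact mul_le_mul_of_nonneg_left im2 (by positivity)
  have k3 : ‖cV (deriv (X b)) z + cG (fun w => X b w - X (!b) w) z‖ ≤
      S * D * IV + 9 * (2 * S * (2 * Real.exp 1 * (1 + L))) :=
    (norm_add_le _ _).trans (add_le_add k1 k2)
  calc q * ‖cV (deriv (X b)) z + cG (fun w => X b w - X (!b) w) z‖
      ≤ q * (S * D * IV + 9 * (2 * S * (2 * Real.exp 1 * (1 + L)))) :=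
        mul_le_mul_of_nonneg_left k3 hq.le
    _ ≤ q * ((C1 * D * IV + 9 * (2 * C1 * (2 * Real.exp 1)) + 1) * (B / n) * (1 + L)) := by
        refine mul_le_mul_of_nonneg_left ?_ hq.le
        rw [hS]
        have hBn : 0 ≤ B / n := by positivity
        have a1 : C1 * (B / n) * D * IV ≤ C1 * (B / n) * D * IV * (1 + L) :=
          le_mul_of_one_le_right (by positivity) (by linarith)
        have a2 : 0 ≤ B / n * (1 + L) := by positivity
        nlinarith
    _ = _ := by ring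

end PBTsE

end
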