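import Pool.Agent.PB.TrG3
import Pool.Agent.ISE.En

/-!
# Transfer, Gaussian part (3), ends `(e, -e)`

Copy of `PB/TrG3` with the ends of the regular function at `e` and `-e` (`0 ≤ e ≤ l / 2`, class `ISE.En`)
in place of `0`.  The minus mode is unchanged.  `symP`: the symbol identity of the plus mode.
-/

set_option autoImplicit false

open MeasureTheory Set Filter Topology

namespace PBT3E

open NUMF PBT3 ISE

noncomputable section

variable [En]

def cP : Fin 10 → ℂ := ![-1, -1, -1, -1, 1, 1, 1 / 2, 1 / 2, 1 / 2, 1 / 2]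

def aP (w w' : ℂ) : Fin 10 → ℂ :=
  ![2 * l - ee, l - ee, 2 * l + ee, l + ee, 2 * l - zz w w', l - zz w w', 4 * l - w, l - w, 4 * l - w', l - w']

variable {w w' : ℂ}

/-- the bounds of the end in the form used by `linarith` -/
lemma e_bd : -(l / 2) ≤ (En.e : ℝ) ∧ (En.e : ℝ) ≤ l / 2 := by
  have h := En.h0
  have h1 : (En.e : ℝ) ≤ l / 2 := e_le
  have hl := l_pos
  exact ⟨by linarith, h1⟩

lemma cP_sum : ∑ j, cP j = 0 := by
  simp [cP, Fin.sum_univ_succ]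
  norm_num

lemma cP_sum1 (w w' : ℂ) : ∑ j, cP j * aP w w' j = 0 := by
  simp [cP, aP, Fin.sum_univ_succ, zz]
  ring

lemma aP_re (h : Geo w w') (j : Fin 10) : |(aP w w' j).re| < 3 * l := by
  have hl := l_pos
  have hz := zz_re w w'
  obtain ⟨e1, e2⟩ := e_bd
  obtain ⟨h1, h2, h3, h4⟩ := h
  refine abs_lt.2 ⟨?_, ?_⟩ <;> fin_cases j <;> simp [aP, hz] <;> linarith

/-- numerator of `Δ₊'` : `2 e(e) + 2 e(-e) - 2 e(z) - ∑ (e(w) + e(w - 2l) - e(w - l))`, `e(r) = pr (3l - r) (-r)` -/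
def dPs (w w' : ℂ) (k : ℝ) : ℂ := 2 * pr (3 * l - ee) (-ee) k + 2 * pr (3 * l - -ee) (- -ee) k -
  2 * pr (3 * l - zz w w') (-zz w w') k -
  (pr (3 * l - w) (-w) k + pr (3 * l - (w - 2 * l)) (-(w - 2 * l)) k - pr (3 * l - (w - l)) (-(w - l)) k) -
  (pr (3 * l - w') (-w') k + pr (3 * l - (w' - 2 * l)) (-(w' - 2 * l)) k -
    pr (3 * l - (w' - l)) (-(w' - l)) k)

/-- numerator of `es2` in the plus channel -/
lemma numP (w w' : ℂ) (k : ℝ) : ∑ j, cP j * Complex.exp (aP w w' j * k) =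
      Complex.exp (l * k) * (Complex.exp (l * k) + 1) *
        ((-(Complex.exp (-(ee * k)) + Complex.exp (-(-ee * k))) + Complex.exp (-(zz w w' * k))) +
        1 / 2 * (Complex.exp (l * k) ^ 2 - Complex.exp (l * k) + 1) *
          (Complex.exp (-(w * k)) + Complex.exp (-(w' * k)))) := by
  have a2 := exp_nl 2 (ee : ℂ) k
  have a1 := exp_nl 1 (ee : ℂ) k
  have b2 := exp_nl 2 (-ee : ℂ) k
  have b1 := exp_nl 1 (-ee : ℂ) k
  have g2 := exp_nl 2 (zz w w') k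
  have g1 := exp_nl 1 (zz w w') k
  have w4 := exp_nl 4 w k
  have w1 := exp_nl 1 w k
  have v4 := exp_nl 4 w' k
  have v1 := exp_nl 1 w' k
  push_cast at a2 a1 b2 b1 g2 g1 w4 w1 v4 v1
  rw [one_mul] at a1 b1 g1 w1 v1
  rw [sub_neg_eq_add] at b2 b1
  rw [Fin.sum_univ_castSucc, Fin.sum_univ_castSucc, Fin.sum_univ_eight]
  change -1 * Complex.exp ((2 * l - ee) * k) + -1 * Complex.exp ((l - ee) * k) +
    -1 * Complex.exp ((2 * l + ee) * k) + -1 * Complex.exp ((l + ee) * k) +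
    1 * Complex.exp ((2 * l - zz w w') * k) + 1 * Complex.exp ((l - zz w w') * k) +
    1 / 2 * Complex.exp ((4 * l - w) * k) + 1 / 2 * Complex.exp ((l - w) * k) +
    1 / 2 * Complex.exp ((4 * l - w') * k) + 1 / 2 * Complex.exp ((l - w') * k) = _
  rw [a2, a1, b2, b1, g2, g1, w4, w1, v4, v1]
  ring

lemma dPs_x (w w' : ℂ) (k : ℝ) : dPs w w' k = (Complex.exp (l * k) ^ 3 - 1) *
    (2 * (Complex.exp (-(ee * k)) + Complex.exp (-(-ee * k))) - 2 * Complex.exp (-(zz w w' * k)) -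
      (Complex.exp (l * k) ^ 2 - Complex.exp (l * k) + 1) *
        (Complex.exp (-(w * k)) + Complex.exp (-(w' * k)))) / (sk k : ℂ) := by
  have o3 := exp_nl 3 (ee : ℂ) k
  have o3' := exp_nl 3 (-ee : ℂ) k
  have z3 := exp_nl 3 (zz w w') k
  have w3 := exp_nl 3 w k
  have w5 := exp_nl 5 w k
  have w2 := exp_nl 2 w k
  have w4 := exp_nl 4 w k
  have w1 := exp_nl 1 w k
  have v3 := exp_nl 3 w' k
  have v5 := exp_nl 5 w' k
  have v2 := exp_nl 2 w' k
  have v4 := exp_nl 4 w' k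
  have v1 := exp_nl 1 w' k
  push_cast at o3 o3' z3 w3 w5 w2 w4 w1 v3 v5 v2 v4 v1
  rw [one_mul] at w1 v1
  unfold dPs pr
  rw [show (3 * l - (w - 2 * l) : ℂ) = 5 * l - w by ring, show (-(w - 2 * l) : ℂ) = 2 * l - w by ring,
    show (3 * l - (w - l) : ℂ) = 4 * l - w by ring, show (-(w - l) : ℂ) = l - w by ring,
    show (3 * l - (w' - 2 * l) : ℂ) = 5 * l - w' by ring, show (-(w' - 2 * l) : ℂ) = 2 * l - w' by ring,
    show (3 * l - (w' - l) : ℂ) = 4 * l - w' by ring, show (-(w' - l) : ℂ) = l - w' by ring,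
    o3, o3', z3, w3, w5, w2, w4, w1, v3, v5, v2, v4, v1, exp_0v, exp_0v, exp_0v, exp_0v, exp_0v]
  ring

theorem symP {k : ℝ} (hk : k ≠ 0) :
    Complex.I * k * (-(es (3 * l) cP (aP w w') k * (Uh k : ℂ))) = Complex.I * Real.pi * dPs w w' k := by
  obtain ⟨x0, x3, x3', x8, x1, x1'⟩ := x_facts hk
  have hk0 : (k : ℂ) ≠ 0 := Complex.ofReal_ne_zero.2 hk
  have hS : (sk k : ℂ) ≠ 0 := by
    rw [sk_x]
    set x := Complex.exp (l * k)
    have : (x ^ 4 - (x ^ 4)⁻¹) / 2 = (x ^ 8 - 1) / (2 * x ^ 4) := by field_simp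
    rw [this]
    exact div_ne_zero x8 (mul_ne_zero two_ne_zero (pow_ne_zero _ x0))
  have hU : (Uh k : ℂ) = 2 * Real.pi * (((ck1 k : ℝ) - 1 : ℂ) * (2 * (ck1 k : ℝ) - 1) *
      (2 * (ck1 k : ℝ) + 1) ^ 2 / (k * (sk k : ℂ))) := by
    unfold Uh
    push_cast
    rfl
  unfold es
  rw [numP, dPs_x, hU, s3_x, ck1_x]
  generalize hSd : (sk k : ℂ) = S at hS
  generalize Complex.exp (-(zz w w' * k)) = Z
  generalize Complex.exp (-(w * k)) = W
  generalize Complex.exp (-(w' * k)) = W'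
  generalize Complex.exp (-(ee * k)) = A
  generalize Complex.exp (-(-ee * k)) = A'
  generalize Complex.exp (l * k) = x at x0 x3 x3' x8 x1 x1'
  have hx6 : (x ^ 3 - (x ^ 3)⁻¹) / 2 = (x ^ 3 - 1) * (x ^ 3 + 1) / (2 * x ^ 3) := by
    field_simp
    ring
  rw [hx6]
  field_simp
  ring

/-- `Δ₊'` -/
def dP (w w' t : ℂ) : ℂ := 2 * eT ee t + 2 * eT (-ee) t - 2 * eT (zz w w') t -
  (eT w t + eT (w - 2 * l) t - eT (w - l) t) - (eT w' t + eT (w' - 2 * l) t - eT (w' - l) t)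

end

end PBT3E
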