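import Pool.Agent.PB.TrG4
import Pool.Agent.ISE.TrG3

/-!
# Transfer, Gaussian part (4), ends `(e, -e)`: the fields solve the equations of the half quanta

Copy of the plus mode of `PB/TrG4`; the minus mode (`bM`, `bM'`, `dM`) is the landed one.
* `convP`: `(- V * β₊')' = Δ₊'`, and `- V * β₊' → 0` at both ends.
-/

set_option autoImplicit false

open MeasureTheory Set Filter Topology

namespace PBT3E

open NUMF PBT3 ISE

noncomputable section

variable [En] {w w' : ℂ}

/-- `β₊'` -/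
def bP' (w w' : ℂ) (t : ℝ) : ℂ := ift (es (3 * l) cP (aP w w')) t

/-- `β₊` -/
def bP (w w' : ℂ) (t : ℝ) : ℂ := ift (fun k => -Complex.I * es2 (3 * l) cP (aP w w') k) t

lemma bP_deriv (h : Geo w w') (t : ℝ) : HasDerivAt (bP w w') (bP' w w' t) t :=
  es2_deriv l3_pos cP_sum (cP_sum1 w w') (aP_re h) t

lemma dPs_IF (h : Geo w w') (t : ℝ) : IF (fun k => Complex.I * Real.pi * dPs w w' k) t (dP w w' t) := by
  have hl := l_pos
  have hz := zz_re w w'
  obtain ⟨e1, e2⟩ := e_bd
  obtain ⟨h1, h2, h3, h4⟩ := h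
  have c1 : |(3 * l - ee : ℂ).re| < 4 * l := abs_lt.2 (by constructor <;> simp <;> linarith)
  have c1' : |(-ee : ℂ).re| < 4 * l := abs_lt.2 (by constructor <;> simp <;> linarith)
  have c0 : |(3 * l - -ee : ℂ).re| < 4 * l := abs_lt.2 (by constructor <;> simp <;> linarith)
  have c0' : |(- -ee : ℂ).re| < 4 * l := abs_lt.2 (by constructor <;> simp <;> linarith)
  have c2 : |(3 * l - zz w w' : ℂ).re| < 4 * l := abs_lt.2 (by constructor <;> simp [hz] <;> linarith)
  have c2' : |(-zz w w' : ℂ).re| < 4 * l := abs_lt.2 (by constructor <;> simp [hz] <;> linarith)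
  have c3 : |(3 * l - w : ℂ).re| < 4 * l := abs_lt.2 (by constructor <;> simp <;> linarith)
  have c3' : |(-w : ℂ).re| < 4 * l := abs_lt.2 (by constructor <;> simp <;> linarith)
  have c4 : |(3 * l - (w - 2 * l) : ℂ).re| < 4 * l := abs_lt.2 (by constructor <;> simp <;> linarith)
  have c4' : |(-(w - 2 * l) : ℂ).re| < 4 * l := abs_lt.2 (by constructor <;> simp <;> linarith)
  have c5 : |(3 * l - (w - l) : ℂ).re| < 4 * l := abs_lt.2 (by constructor <;> simp <;> linarith)
  have c5' : |(-(w - l) : ℂ).re| < 4 * l := abs_lt.2 (by constructor <;> simp <;> linarith)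
  have c6 : |(3 * l - w' : ℂ).re| < 4 * l := abs_lt.2 (by constructor <;> simp <;> linarith)
  have c6' : |(-w' : ℂ).re| < 4 * l := abs_lt.2 (by constructor <;> simp <;> linarith)
  have c7 : |(3 * l - (w' - 2 * l) : ℂ).re| < 4 * l := abs_lt.2 (by constructor <;> simp <;> linarith)
  have c7' : |(-(w' - 2 * l) : ℂ).re| < 4 * l := abs_lt.2 (by constructor <;> simp <;> linarith)
  have c8 : |(3 * l - (w' - l) : ℂ).re| < 4 * l := abs_lt.2 (by constructor <;> simp <;> linarith)
  have c8' : |(-(w' - l) : ℂ).re| < 4 * l := abs_lt.2 (by constructor <;> simp <;> linarith)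
  have key : IF (dPs w w') t _ := (((((IF_pr c1 c1' t).const 2).add ((IF_pr c0 c0' t).const 2)).sub
    ((IF_pr c2 c2' t).const 2)).sub
    (((IF_pr c3 c3' t).add (IF_pr c4 c4' t)).sub (IF_pr c5 c5' t))).sub
    (((IF_pr c6 c6' t).add (IF_pr c7 c7' t)).sub (IF_pr c8 c8' t))
  have k2 := key.const (Complex.I * Real.pi)
  refine ⟨k2.1, k2.2.trans ?_⟩
  have t1 := pr_T (t := t) c1 c1'
  have t0 := pr_T (t := t) c0 c0'
  have t2 := pr_T (t := t) c2 c2'
  have t3 := pr_T (t := t) c3 c3'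
  have t4 := pr_T (t := t) c4 c4'
  have t5 := pr_T (t := t) c5 c5'
  have t6 := pr_T (t := t) c6 c6'
  have t7 := pr_T (t := t) c7 c7'
  have t8 := pr_T (t := t) c8 c8'
  unfold dP eT
  unfold pT at t0 t1 t2 t3 t4 t5 t6 t7 t8
  linear_combination 2 * t1 + 2 * t0 - 2 * t2 - (t3 + t4 - t5) - (t6 + t7 - t8)

/-- **`(- V * β₊')' = Δ₊'`** -/
theorem convP (h : Geo w w') (t : ℝ) :
    HasDerivAt (fun t => -∫ s, bP' w w' s * (V (t - s) : ℂ)) (dP w w' t) t := by
  have hm := es_int l3_pos cP_sum (aP_re h)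
  have e : (fun t => -∫ s, bP' w w' s * (V (t - s) : ℂ)) =
      ift (fun k => -(es (3 * l) cP (aP w w') k * (Uh k : ℂ))) := by
    funext t
    unfold bP'
    rw [conv_V hm, ift_neg]
  have h2 := dPs_IF h t
  rw [e, ← h2.2]
  exact ift_deriv (mul_Uh_int hm).neg h2.1 (fun k hk => (symP hk).symm) t

theorem convP_lim (h : Geo w w') :
    Tendsto (fun t => -∫ s, bP' w w' s * (V (t - s) : ℂ)) (cocompact ℝ) (𝓝 0) := by
  have hm := es_int l3_pos cP_sum (aP_re h)
  have e : (fun t => -∫ s, bP' w w' s * (V (t - s) : ℂ)) =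
      ift (fun k => -(es (3 * l) cP (aP w w') k * (Uh k : ℂ))) := by
    funext t
    unfold bP'
    rw [conv_V hm, ift_neg]
  rw [e]
  exact ift_zero _

lemma bP'_eq (h : Geo w w') (t : ℝ) : bP' w w' t = TT (4 / 3) cP (aP w w') t := by
  unfold bP' TT
  rw [ift_es l3_pos cP_sum (aP_re h), PBT3.kap_eq, pre_eq]
  push_cast
  rfl

lemma bP_eq (h : Geo w w') (t : ℝ) : bP w w' t = BB (4 / 3) cP (aP w w') t := by
  unfold bP BB
  rw [ift_es2 l3_pos cP_sum (cP_sum1 w w') (aP_re h), PBT3.kap_eq]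

lemma kP (h : Geo w w') (j : Fin 10) : |(4 / 3 : ℝ) * (aP w w' j).re| < Real.pi / 2 := k43 (aP_re h j)

lemma bP'_int (h : Geo w w') : Integrable (bP' w w') := by
  have h1 := TT_int (κ := 4 / 3) (by norm_num) cP_sum (kP h)
  exact h1.congr (Eventually.of_forall fun t => (bP'_eq h t).symm)

lemma bP_int (h : Geo w w') : Integrable (bP w w') := by
  have h1 := BB_int (κ := 4 / 3) (by norm_num) cP_sum (cP_sum1 w w') (kP h)
  exact h1.congr (Eventually.of_forall fun t => (bP_eq h t).symm)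

lemma bP'_cont (h : Geo w w') : Continuous (bP' w w') := by
  have h1 := continuous_TT (κ := 4 / 3) (c := cP) (kP h)
  exact h1.congr fun t => (bP'_eq h t).symm


end

end PBT3E
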