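import Pool.Agent.PB.TrG5
import Pool.Agent.ISE.TrG4

/-!
# Transfer, Gaussian part (5), ends `(e, -e)`: the Gaussian exponents in closed form

* `pI w w' = ∫ β₊ D_z'`, `qI w w' = (1/2) ∫ (β₊ Δ₊' + β₋ Δ₋')`;
* `pI_eq : pI = 2 F2 (z + e) + 2 F2 (z - e) - 4 F2 l - F1 (w - l - z) - F1 (w' - l - z)`;
* `gI_eq : pI + qI / 2 = F1 (w-w'+l) + F1 (w-w'-l) - F1 (w-w') - F1 (w-l±e) - F1 (w'-l±e) - 6 F2 l + 2 F2 (2e)`.
-/

set_option autoImplicit false

open MeasureTheory Set Filter Topology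

namespace PBT3E

open NUMF PBFr PBT3 ISE

noncomputable section

variable [En] {w w' : ℂ}

lemma bP_ft (h : Geo w w') {k : ℝ} (hk : k ≠ 0) :
    ∫ t, bP w w' t * Complex.exp ((k * t : ℝ) * Complex.I) = -Complex.I * es2 (3 * l) cP (aP w w') (-k) := by
  have h1 := ft_of ((es2_int l3_pos cP_sum (cP_sum1 w w') (aP_re h)).const_mul (-Complex.I)) (bP_int h) (k := k)
    (continuousAt_const.mul (es2_contAt l3_pos _ _ (neg_ne_zero.2 hk)))
  exact h1

/-- pairing of the field with a potential -/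
lemma pairP (h : Geo w w') {m : ℝ → ℂ} (hm : Integrable m) :
    ∫ t, bP w w' t * ift (fun k => Complex.I * Real.pi * m k) t =
      1 / 2 * ∫ k, m k * es2 (3 * l) cP (aP w w') (-k) := by
  rw [parseval (bP_int h) (hm.const_mul _), ← integral_const_mul, ← integral_const_mul]
  refine integral_congr_ae ?_
  filter_upwards [ae_ne_zero] with k hk
  rw [bP_ft h hk]
  have hp : (Real.pi : ℂ) ≠ 0 := Complex.ofReal_ne_zero.2 Real.pi_ne_zero
  push_cast
  field_simp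
  rw [Complex.I_sq]
  ring

/-- `es2` at `-k`, plus channel -/
lemma es2P_neg {k : ℝ} (hk : k ≠ 0) : es2 (3 * l) cP (aP w w') (-k) =
    2 * Complex.exp (l * k) * ((-((Complex.exp (-(ee * k)))⁻¹ + (Complex.exp (-(-ee * k)))⁻¹) + (Complex.exp (-(zz w w' * k)))⁻¹) +
      1 / 2 * (Complex.exp (l * k) ^ 2 - Complex.exp (l * k) + 1) * ((Complex.exp (l * k)) ^ 2)⁻¹ *
        ((Complex.exp (-(w * k)))⁻¹ + (Complex.exp (-(w' * k)))⁻¹)) /
      (k * (Complex.exp (l * k) ^ 3 - 1) * (Complex.exp (l * k) ^ 2 - Complex.exp (l * k) + 1)) := by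
  obtain ⟨x0, x3, x3', x8, x1, x1'⟩ := x_facts hk
  have x2 := x2_ne k
  have hk0 : (k : ℂ) ≠ 0 := Complex.ofReal_ne_zero.2 hk
  unfold es2
  rw [numP, x_neg, v_neg, v_neg, v_neg, v_neg, v_neg, Complex.ofReal_mul, s3_x, x_neg]
  have n1 := Complex.exp_ne_zero (-(zz w w' * k))
  have n2 := Complex.exp_ne_zero (-(w * k))
  have n3 := Complex.exp_ne_zero (-(w' * k))
  have n4 := Complex.exp_ne_zero (-(ee * k))
  have n5 := Complex.exp_ne_zero (-(-ee * k))
  generalize Complex.exp (-(-ee * k)) = A' at *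
  generalize Complex.exp (-(ee * k)) = A at *
  generalize Complex.exp (-(zz w w' * k)) = Z at *
  generalize Complex.exp (-(w * k)) = W at *
  generalize Complex.exp (-(w' * k)) = W' at *
  generalize Complex.exp (l * k) = x at *
  have hx6 : ((x⁻¹) ^ 3 - ((x⁻¹) ^ 3)⁻¹) / 2 = -((x ^ 3 - 1) * ((x + 1) * (x ^ 2 - x + 1))) / (2 * x ^ 3) := by
    field_simp
    ring
  rw [hx6]
  push_cast
  field_simp
  ring

/-- the symbol of `p` -/
def gp (w w' : ℂ) (k : ℝ) : ℂ := 1 / 2 * (pr (3 * l - zz w w') (-zz w w') k * es2 (3 * l) cP (aP w w') (-k))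

/-- the symbol of `q / 2` -/
def gq (w w' : ℂ) (k : ℝ) : ℂ := 1 / 8 * (dPs w w' k * es2 (3 * l) cP (aP w w') (-k) +
  dMs w w' k * es2 (3 * l) cM (aM w w') (-k))

theorem gp_sym {k : ℝ} (hk : k ≠ 0) : 1 / 2 * (gp w w' k + gp w w' (-k)) =
    2 * (1 / 2 * B2 (zz w w' + ee) k) + 2 * (1 / 2 * B2 (zz w w' + (-ee)) k) - 4 * (1 / 2 * B2 l k) - 1 / 2 * B1 (w - l - zz w w') k -
      1 / 2 * B1 (w' - l - zz w w') k := by
  obtain ⟨x0, x3, x3', x8, x1, x1'⟩ := x_facts hk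
  have x2 := x2_ne k
  have hk0 : (k : ℂ) ≠ 0 := Complex.ofReal_ne_zero.2 hk
  have hS := sk_ne hk
  have e1 : es2 (3 * l) cP (aP w w') (- -k) = (∑ j, cP j * Complex.exp (aP w w' j * k)) /
      ((k * Real.sinh (3 * l * k) : ℝ) : ℂ) := by rw [neg_neg]; rfl
  have hx : Complex.exp (l * k) + (Complex.exp (l * k))⁻¹ - 1 =
      (Complex.exp (l * k) ^ 2 - Complex.exp (l * k) + 1) / Complex.exp (l * k) := by
    field_simp
    ring
  unfold gp
  rw [e1, numP, Complex.ofReal_mul, s3_x, es2P_neg hk, pr_z, pr_z, x_neg, v_neg, sk_negC, B1_x, B1_x, B2_x, B2_x, B2_x,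
    hx, show w - l - zz w w' = w + (-l) + (-zz w w') by ring, show w' - l - zz w w' = w' + (-l) + (-zz w w') by ring,
    exp_mulk, exp_mulk, exp_mulk, exp_mulk, exp_mulk, exp_mulk, exp_negk, exp_negk, exp_negk, neg_mul, neg_neg]
  have n1 := Complex.exp_ne_zero (zz w w' * k)
  have n2 := Complex.exp_ne_zero (w * k)
  have n4 := Complex.exp_ne_zero (ee * k)
  have n3 := Complex.exp_ne_zero (w' * k)
  rw [Complex.exp_neg (zz w w' * k), Complex.exp_neg (ee * k), Complex.exp_neg (w * k), Complex.exp_neg (w' * k)]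
  generalize Complex.exp (zz w w' * k) = Z at *
  generalize Complex.exp (ee * k) = A at *
  generalize Complex.exp (w * k) = W at *
  generalize Complex.exp (w' * k) = W' at *
  generalize Complex.exp (l * k) = x at *
  generalize (sk k : ℂ) = S at *
  have hx6 : (x ^ 3 - (x ^ 3)⁻¹) / 2 = (x ^ 3 - 1) * ((x + 1) * (x ^ 2 - x + 1)) / (2 * x ^ 3) := by
    field_simp
    ring
  rw [hx6]
  have hx7 : (x⁻¹) ^ 3 - 1 = -(x ^ 3 - 1) / x ^ 3 := by field_simp; ring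
  rw [hx7]
  obtain ⟨y, hy⟩ : ∃ y, y = x ^ 2 - x + 1 := ⟨_, rfl⟩
  obtain ⟨u, hu⟩ : ∃ u, u = x ^ 3 - 1 := ⟨_, rfl⟩
  obtain ⟨v, hv⟩ : ∃ v, v = x + 1 := ⟨_, rfl⟩
  rw [← hy, ← hu, ← hv]
  rw [← hy] at x2
  rw [← hu] at x3
  rw [← hv] at x1'
  field_simp
  rw [hy]
  ring

theorem gq_sym {k : ℝ} (hk : k ≠ 0) : 1 / 2 * (gq w w' k + gq w w' (-k)) =
    1 / 2 * B1 (w - w' + l) k + 1 / 2 * B1 (w - w' - l) k - 1 / 2 * B1 (w - w') k -
      1 / 2 * B1 (w - l - ee) k - 1 / 2 * B1 (w - l + ee) k - 1 / 2 * B1 (w' - l - ee) k -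
      1 / 2 * B1 (w' - l + ee) k - 6 * (1 / 2 * B2 l k) + 2 * (1 / 2 * B2 (2 * ee) k) -
      (2 * (1 / 2 * B2 (zz w w' + ee) k) + 2 * (1 / 2 * B2 (zz w w' + (-ee)) k) - 4 * (1 / 2 * B2 l k) - 1 / 2 * B1 (w - l - zz w w') k -
      1 / 2 * B1 (w' - l - zz w w') k) := by
  obtain ⟨x0, x3, x3', x8, x1, x1'⟩ := x_facts hk
  have x2 := x2_ne k
  have hk0 : (k : ℂ) ≠ 0 := Complex.ofReal_ne_zero.2 hk
  have hS := sk_ne hk
  have e1 : es2 (3 * l) cP (aP w w') (- -k) = (∑ j, cP j * Complex.exp (aP w w' j * k)) /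
      ((k * Real.sinh (3 * l * k) : ℝ) : ℂ) := by rw [neg_neg]; rfl
  have e2 : es2 (3 * l) cM (aM w w') (- -k) = (∑ j, cM j * Complex.exp (aM w w' j * k)) /
      ((k * Real.sinh (3 * l * k) : ℝ) : ℂ) := by rw [neg_neg]; rfl
  have hx : Complex.exp (l * k) + (Complex.exp (l * k))⁻¹ - 1 =
      (Complex.exp (l * k) ^ 2 - Complex.exp (l * k) + 1) / Complex.exp (l * k) := by
    field_simp
    ring
  unfold gq
  rw [e1, e2, numP, numM, Complex.ofReal_mul, s3_x, es2P_neg hk, es2M_neg hk, dPs_x, dMs_x, dPs_x, dMs_x,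
    x_neg, v_neg, v_neg, v_neg, v_neg, v_neg, sk_negC]
  simp only [B1_x, B2_x]
  rw [hx, show w - l - zz w w' = w + (-l) + (-zz w w') by ring, show w' - l - zz w w' = w' + (-l) + (-zz w w') by ring,
    show w - w' + l = w + (-w') + l by ring, show w - w' - l = w + (-w') + (-l) by ring,
    show w - w' = w + (-w') by ring, show w - l - ee = w + (-l) + (-ee) by ring, show w - l + ee = w + (-l) + ee by ring,
    show w' - l - ee = w' + (-l) + (-ee) by ring, show w' - l + ee = w' + (-l) + ee by ring, show 2 * ee = ee + ee by ring]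
  have hA : Complex.exp (-(-ee * k)) = Complex.exp (ee * k) := by rw [neg_mul, neg_neg]
  simp only [exp_mulk, exp_negk, hA]
  have n1 := Complex.exp_ne_zero (zz w w' * k)
  have n2 := Complex.exp_ne_zero (w * k)
  have n4 := Complex.exp_ne_zero (ee * k)
  have n3 := Complex.exp_ne_zero (w' * k)
  rw [Complex.exp_neg (zz w w' * k), Complex.exp_neg (ee * k), Complex.exp_neg (w * k), Complex.exp_neg (w' * k)]
  generalize Complex.exp (zz w w' * k) = Z at *
  generalize Complex.exp (ee * k) = A at *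
  generalize Complex.exp (w * k) = W at *
  generalize Complex.exp (w' * k) = W' at *
  generalize Complex.exp (l * k) = x at *
  generalize (sk k : ℂ) = S at *
  have hx6 : (x ^ 3 - (x ^ 3)⁻¹) / 2 = (x ^ 3 - 1) * ((x + 1) * (x ^ 2 - x + 1)) / (2 * x ^ 3) := by
    field_simp
    ring
  rw [hx6]
  have hx7 : (x⁻¹) ^ 3 - 1 = -(x ^ 3 - 1) / x ^ 3 := by field_simp; ring
  have hx8 : (x⁻¹) ^ 2 - x⁻¹ + 1 = (x ^ 2 - x + 1) / x ^ 2 := by field_simp; ring
  have hx9 : (x⁻¹) ^ 3 + 1 = ((x + 1) * (x ^ 2 - x + 1)) / x ^ 3 := by field_simp; ring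
  have hx10 : x ^ 3 + 1 = ((x + 1) * (x ^ 2 - x + 1)) := by ring
  rw [hx7, hx8, hx9, hx10]
  obtain ⟨y, hy⟩ : ∃ y, y = x ^ 2 - x + 1 := ⟨_, rfl⟩
  obtain ⟨u, hu⟩ : ∃ u, u = x ^ 3 - 1 := ⟨_, rfl⟩
  obtain ⟨v, hv⟩ : ∃ v, v = x + 1 := ⟨_, rfl⟩
  have hx11 : x ^ 4 - x = x * u := by rw [hu]; ring
  rw [hx11]
  rw [← hy, ← hu, ← hv]
  rw [← hy] at x2
  rw [← hu] at x3
  rw [← hv] at x1'
  field_simp
  rw [hy]
  ring

lemma intP (h : Geo w w') {m : ℝ → ℂ} (hm : Integrable m) :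
    Integrable fun k => m k * es2 (3 * l) cP (aP w w') (-k) := by
  refine hm.mul_bdd (c := ∫ t, ‖bP w w' t‖) (es2_meas _ _ _).aestronglyMeasurable ?_
  filter_upwards [ae_ne_zero] with k hk
  exact es2_bdd (bP_int h) (bP_ft h hk)

lemma HP (h : Geo w w') : HI (fun k => 2 * (1 / 2 * B2 (zz w w' + ee) k) + 2 * (1 / 2 * B2 (zz w w' + (-ee)) k) -
      4 * (1 / 2 * B2 l k) - 1 / 2 * B1 (w - l - zz w w') k - 1 / 2 * B1 (w' - l - zz w w') k)
    (2 * F2 (zz w w' + ee) + 2 * F2 (zz w w' + (-ee)) - 4 * F2 l - F1 (w - l - zz w w') - F1 (w' - l - zz w w')) := by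
  have hl := l_pos
  have hz := zz_re w w'
  obtain ⟨e1, e2⟩ := e_bd
  obtain ⟨h1, h2, h3, h4⟩ := h
  have c1 : |(zz w w' + ee).re| < 5 * l := abs_lt.2 (by constructor <;> simp [hz] <;> linarith)
  have c1' : |(zz w w' + (-ee)).re| < 5 * l := abs_lt.2 (by constructor <;> simp [hz] <;> linarith)
  have c2 : |(l : ℂ).re| < 5 * l := abs_lt.2 (by constructor <;> rw [Complex.ofReal_re] <;> linarith)
  have c3 : |(w - l - zz w w').re| < 4 * l := abs_lt.2 (by constructor <;> simp [hz] <;> linarith)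
  have c4 : |(w' - l - zz w w').re| < 4 * l := abs_lt.2 (by constructor <;> simp [hz] <;> linarith)
  exact (((((HI_B2 c1).const 2).add ((HI_B2 c1').const 2)).sub ((HI_B2 c2).const 4)).sub (HI_B1 c3)).sub (HI_B1 c4)

lemma HQ (h : Geo w w') : HI (fun k => 1 / 2 * B1 (w - w' + l) k + 1 / 2 * B1 (w - w' - l) k -
      1 / 2 * B1 (w - w') k - 1 / 2 * B1 (w - l - ee) k - 1 / 2 * B1 (w - l + ee) k -
      1 / 2 * B1 (w' - l - ee) k - 1 / 2 * B1 (w' - l + ee) k - 6 * (1 / 2 * B2 l k) +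
      2 * (1 / 2 * B2 (2 * ee) k))
    (F1 (w - w' + l) + F1 (w - w' - l) - F1 (w - w') - F1 (w - l - ee) - F1 (w - l + ee) -
      F1 (w' - l - ee) - F1 (w' - l + ee) - 6 * F2 l + 2 * F2 (2 * ee)) := by
  have hl := l_pos
  obtain ⟨e1, e2⟩ := e_bd
  obtain ⟨h1, h2, h3, h4⟩ := h
  have c1 : |(w - w' + l).re| < 4 * l := abs_lt.2 (by constructor <;> simp <;> linarith)
  have c2 : |(w - w' - l).re| < 4 * l := abs_lt.2 (by constructor <;> simp <;> linarith)
  have c3 : |(w - w').re| < 4 * l := abs_lt.2 (by constructor <;> simp <;> linarith)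
  have c4 : |(w - l - ee).re| < 4 * l := abs_lt.2 (by constructor <;> simp <;> linarith)
  have c4' : |(w - l + ee).re| < 4 * l := abs_lt.2 (by constructor <;> simp <;> linarith)
  have c5 : |(w' - l - ee).re| < 4 * l := abs_lt.2 (by constructor <;> simp <;> linarith)
  have c5' : |(w' - l + ee).re| < 4 * l := abs_lt.2 (by constructor <;> simp <;> linarith)
  have c6 : |(l : ℂ).re| < 5 * l := abs_lt.2 (by constructor <;> rw [Complex.ofReal_re] <;> linarith)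
  have c7 : |(2 * ee : ℂ).re| < 5 * l := abs_lt.2 (by constructor <;> simp <;> linarith)
  exact ((((((((HI_B1 c1).add (HI_B1 c2)).sub (HI_B1 c3)).sub (HI_B1 c4)).sub (HI_B1 c4')).sub
    (HI_B1 c5)).sub (HI_B1 c5')).sub ((HI_B2 c6).const 6)).add ((HI_B2 c7).const 2)

/-- `p = ∫ β₊ D_z'` -/
def pI (w w' : ℂ) : ℂ := ∫ t, bP w w' t * eT (zz w w') t

/-- `q = (1/2) ∫ (β₊ Δ₊' + β₋ Δ₋')` -/
def qI (w w' : ℂ) : ℂ := 1 / 2 * ((∫ t, bP w w' t * dP w w' t) + ∫ t, bM w w' t * dM w w' t)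

lemma dPs_int (h : Geo w w') : Integrable (dPs w w') := by
  have h1 := (dPs_IF h 0).1.const_mul (Complex.I * Real.pi)⁻¹
  refine h1.congr (Eventually.of_forall fun k => ?_)
  have hp : (Real.pi : ℂ) ≠ 0 := Complex.ofReal_ne_zero.2 Real.pi_ne_zero
  have hI := Complex.I_ne_zero
  simp only
  field_simp

lemma gp_int (h : Geo w w') : Integrable (gp w w') := by
  have h1 := (intP h (prz_int h)).const_mul (1 / 2 : ℂ)
  exact h1

lemma gq_int (h : Geo w w') : Integrable (gq w w') := by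
  have h1 := ((intP h (dPs_int h)).add (intM h (dMs_int h))).const_mul (1 / 8 : ℂ)
  exact h1

/-- **`p` in closed form** -/
theorem pI_eq (h : Geo w w') :
    pI w w' = 2 * F2 (zz w w' + ee) + 2 * F2 (zz w w' + (-ee)) - 4 * F2 l - F1 (w - l - zz w w') - F1 (w' - l - zz w w') := by
  have h1 : pI w w' = ∫ k, gp w w' k := by
    unfold pI
    simp_rw [eT_ift h]
    rw [pairP h (prz_int h), ← integral_const_mul]
    rfl
  rw [h1]
  exact sym_HI (gp_int h) (HP h) fun k hk => gp_sym hk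

lemma qI_half (h : Geo w w') : 1 / 2 * qI w w' = ∫ k, gq w w' k := by
  have e1 : ∫ t, bP w w' t * dP w w' t = 1 / 2 * ∫ k, dPs w w' k * es2 (3 * l) cP (aP w w') (-k) := by
    rw [← pairP h (dPs_int h)]
    refine integral_congr_ae (Eventually.of_forall fun t => ?_)
    simp only
    rw [(dPs_IF h t).2]
  have e2 : ∫ t, bM w w' t * dM w w' t = 1 / 2 * ∫ k, dMs w w' k * es2 (3 * l) cM (aM w w') (-k) := by
    rw [← pairM h (dMs_int h)]
    refine integral_congr_ae (Eventually.of_forall fun t => ?_)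
    simp only
    rw [(dMs_IF h t).2]
  unfold qI gq
  rw [e1, e2, integral_const_mul, integral_add (intP h (dPs_int h)) (intM h (dMs_int h))]
  ring

/-- **`p + q/2` in closed form** -/
theorem gI_eq (h : Geo w w') : pI w w' + 1 / 2 * qI w w' =
    F1 (w - w' + l) + F1 (w - w' - l) - F1 (w - w') - F1 (w - l - ee) - F1 (w - l + ee) -
      F1 (w' - l - ee) - F1 (w' - l + ee) - 6 * F2 l + 2 * F2 (2 * ee) := by
  rw [pI_eq h, qI_half h, sym_HI (gq_int h) ((HQ h).sub (HP h)) fun k hk => gq_sym hk]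
  ring

end

end PBT3E
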