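import Pool.Agent.PB.TrG6
import Pool.Agent.ISE.TrG5

/-!
# Transfer, Gaussian part (6), ends `(e, -e)`: the fields of the two species in the strip

`w = 5l/4 + i τ`, `w' = 5l/4 + i τ'`, `be w w' b t = (β₊ ± β₋)/2` at complex heights:
* `be_hd`, `be_le`, `be_lin`, `be'_le`: analyticity and bounds for `-l/4 < Im t < 11l/4`;
* **`rsp_be : rsp β b t = Del b t`** in the strip; `rsp_top`, `rsp_bot`: the limits at infinity;
* `pI_sum`, `qI_sum`: `p = ∑ ∫ β D_z'`, `q = ∑ ∫ β Δ'`.
-/

set_option autoImplicit false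

open MeasureTheory Set Filter Topology

namespace PBT3E

open NUMF PBT3 ISE

noncomputable section

variable [En] {w w' : ℂ}

/-- the field of a species -/
def be (w w' : ℂ) (b : Bool) (t : ℂ) : ℂ :=
  1 / 2 * (BB (4 / 3 : ℝ) cP (aP w w') t + sgb b * BB (4 / 3 : ℝ) cM (aM w w') t)

/-- its derivative -/
def be' (w w' : ℂ) (b : Bool) (t : ℂ) : ℂ :=
  1 / 2 * (TT (4 / 3 : ℝ) cP (aP w w') t + sgb b * TT (4 / 3 : ℝ) cM (aM w w') t)

lemma aP_st (h : G5 w w') (j : Fin 10) : -(l / 4) ≤ (aP w w' j).re ∧ (aP w w' j).re ≤ 11 / 4 * l := by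
  have hl := l_pos
  have hz := zz_re w w'
  obtain ⟨e1, e2⟩ := e_bd
  obtain ⟨h1, h2⟩ := h
  rw [h1, h2] at hz
  constructor <;> fin_cases j <;> simp [aP, hz, h1, h2] <;> linarith

lemma aP_im (w w' : ℂ) (j : Fin 10) : |(aP w w' j).im| ≤ MM w w' := by
  have h1 : |w.im| ≤ MM w w' := le_max_left _ _
  have h2 : |w'.im| ≤ MM w w' := le_max_right _ _
  have h0 := MM_nonneg w w'
  have hz := zz_im w w'
  have hz2 : |(zz w w').im| ≤ MM w w' := by
    rw [hz, abs_div, abs_neg, abs_two, div_le_iff₀ two_pos]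
    exact (abs_add_le _ _).trans (by linarith)
  fin_cases j <;> simp [aP] <;> assumption

theorem be_hd (h : G5 w w') (b : Bool) {t : ℂ} (ht : t ∈ St) :
    HasDerivAt (be w w' b) (be' w w' b t) t := by
  have h1 := BB_deriv (κ := 4 / 3) (c := cP) (a := aP w w') (t := t) fun j => st_lt (aP_st h j) ht.1 ht.2
  have h2 := BB_deriv (κ := 4 / 3) (c := cM) (a := aM w w') (t := t) fun j => st_lt (aM_st h j) ht.1 ht.2
  exact (h1.add (h2.const_mul (sgb b))).const_mul (1 / 2)

lemma deriv_be (h : G5 w w') (b : Bool) {t : ℂ} (ht : t ∈ St) : deriv (be w w' b) t = be' w w' b t :=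
  (be_hd h b ht).deriv

/-- the constant of the bounds -/
def Cst (y1 y2 : ℝ) : ℝ := ((∑ j, ‖cP j‖) + ∑ j, ‖cM j‖) / Real.cos (bst y1 y2)

lemma Cst_nonneg {y1 y2 : ℝ} (h1 : -(l / 4) < y1) (h2 : y2 < 11 / 4 * l) (h12 : y1 ≤ y2) :
    0 ≤ Cst y1 y2 := by
  have := cos_bst h1 h2 h12
  unfold Cst
  positivity

theorem be_le (h : G5 w w') (b : Bool) {y1 y2 : ℝ} (h1 : -(l / 4) < y1) (h2 : y2 < 11 / 4 * l) {t : ℂ}
    (ht1 : y1 ≤ t.im) (ht2 : t.im ≤ y2) :
    ‖be w w' b t‖ ≤ Cst y1 y2 * Real.exp (8 / 3 * (MM w w' - |t.re|)) := by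
  have hc := cos_bst h1 h2 (ht1.trans ht2)
  have a1 := BB_le (κ := 4 / 3) (t := t) cP_sum (cP_sum1 w w') (by norm_num) (bst_lt h1 h2)
    (fun j => st_le (aP_st h j) ht1 ht2) (aP_im w w')
  have a2 := BB_le (κ := 4 / 3) (t := t) cM_sum (cM_sum1 w w') (by norm_num) (bst_lt h1 h2)
    (fun j => st_le (aM_st h j) ht1 ht2) (aM_im w w')
  refine (half_sum b a1 a2).trans ?_
  rw [show (2 : ℝ) * (4 / 3) = 8 / 3 by norm_num, ← add_mul, ← mul_add, ← add_div]
  refine mul_le_mul_of_nonneg_right ?_ (Real.exp_pos _).le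
  have hC := Cst_nonneg h1 h2 (ht1.trans ht2)
  unfold Cst at hC ⊢
  have hp : 1 / Real.pi ≤ 1 := by
    rw [div_le_one Real.pi_pos]
    linarith [Real.pi_gt_three]
  exact mul_le_of_le_one_left hC hp

theorem be'_le (h : G5 w w') (b : Bool) {y1 y2 : ℝ} (h1 : -(l / 4) < y1) (h2 : y2 < 11 / 4 * l) {t : ℂ}
    (ht1 : y1 ≤ t.im) (ht2 : t.im ≤ y2) :
    ‖be' w w' b t‖ ≤ Cst y1 y2 * Real.exp (8 / 3 * (MM w w' - |t.re|)) := by
  have hc := cos_bst h1 h2 (ht1.trans ht2)
  have a1 := TT_le (κ := 4 / 3) (t := t) (by norm_num) cP_sum (bst_lt h1 h2)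
    (fun j => st_le (aP_st h j) ht1 ht2) (aP_im w w')
  have a2 := TT_le (κ := 4 / 3) (t := t) (by norm_num) cM_sum (bst_lt h1 h2)
    (fun j => st_le (aM_st h j) ht1 ht2) (aM_im w w')
  refine (half_sum b a1 a2).trans ?_
  rw [show (2 : ℝ) * (4 / 3) = 8 / 3 by norm_num, ← add_mul, ← mul_add, ← add_div]
  refine mul_le_mul_of_nonneg_right ?_ (Real.exp_pos _).le
  have hC := Cst_nonneg h1 h2 (ht1.trans ht2)
  unfold Cst at hC ⊢
  have hp : 8 / 3 / Real.pi ≤ 1 := by
    rw [div_le_one Real.pi_pos]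
    linarith [Real.pi_gt_three]
  exact mul_le_of_le_one_left hC hp

/-! ### the linear bound -/

/-- the constant of the linear bound -/
def Clin (y1 y2 : ℝ) : ℝ := ((∑ j, ‖cP j‖) + ∑ j, ‖cM j‖) * (4 + 1 / Real.cos (bst y1 y2))

theorem be_lin (h : G5 w w') (b : Bool) {y1 y2 : ℝ} (h1 : -(l / 4) < y1) (h2 : y2 < 11 / 4 * l) {t : ℂ}
    (ht1 : y1 ≤ t.im) (ht2 : t.im ≤ y2) : ‖be w w' b t‖ ≤ Clin y1 y2 * (1 + MM w w') := by
  have hc := cos_bst h1 h2 (ht1.trans ht2)
  have hM := MM_nonneg w w'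
  obtain ⟨S, hS⟩ : ∃ S : ℝ, S = (∑ j, ‖cP j‖) + ∑ j, ‖cM j‖ := ⟨_, rfl⟩
  have hS0 : 0 ≤ S := by rw [hS]; positivity
  have hi : 0 ≤ 1 / Real.cos (bst y1 y2) := by positivity
  rcases le_total |t.re| (MM w w') with ht | ht
  · have a1 := BB_lin (c := cP) (bst_lt h1 h2) (fun j => st_le (aP_st h j) ht1 ht2) (aP_im w w') ht
    have a2 := BB_lin (c := cM) (bst_lt h1 h2) (fun j => st_le (aM_st h j) ht1 ht2) (aM_im w w') ht
    refine (half_sum b a1 a2).trans ?_
    unfold Clin
    rw [← add_mul, ← hS]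
    nlinarith [mul_nonneg hS0 (mul_nonneg hi hM)]
  · refine (be_le h b h1 h2 ht1 ht2).trans ?_
    have h3 : Real.exp (8 / 3 * (MM w w' - |t.re|)) ≤ 1 := Real.exp_le_one_iff.2 (by nlinarith)
    unfold Cst Clin
    rw [← hS]
    have h4 : S / Real.cos (bst y1 y2) = S * (1 / Real.cos (bst y1 y2)) := by ring
    rw [h4]
    have h5 : 0 ≤ S * (1 / Real.cos (bst y1 y2)) := mul_nonneg hS0 hi
    nlinarith [mul_nonneg hS0 (mul_nonneg hi hM), mul_nonneg hS0 hM]

/-! ### the real line -/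

lemma be_real (h : Geo w w') (b : Bool) (t : ℝ) : be w w' b t = 1 / 2 * (bP w w' t + sgb b * bM w w' t) := by
  rw [bP_eq h, bM_eq h]
  rfl

lemma be'_real (h : Geo w w') (b : Bool) (t : ℝ) :
    be' w w' b t = 1 / 2 * (bP' w w' t + sgb b * bM' w w' t) := by
  rw [bP'_eq h, bM'_eq h]
  rfl

/-- the plus response on the real line -/
def AP (w w' : ℂ) (t : ℝ) : ℂ := -∫ s, bP' w w' s * (V (t - s) : ℂ)

theorem rsp_real (h : Geo w w') (b : Bool) (t : ℝ) (hd : ∀ u : ℝ, deriv (be w w' b) u = be' w w' b u) :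
    PB.rsp (be w w') b t = 1 / 2 * (AP w w' t + sgb b * AM w w' t) := by
  have i1 : Integrable fun s => bP' w w' s * (V (t - s) : ℂ) :=
    mulV_int (es_int l3_pos cP_sum (aP_re h)) (bP'_int h) t
  have i2 : Integrable fun s => bM' w w' s * (V (t - s) : ℂ) :=
    mulV_int (es_int l3_pos cM_sum (aM_re h)) (bM'_int h) t
  have e1 : PB.cV (deriv (be w w' b)) t = 1 / 2 * ((∫ s, bP' w w' s * (V (t - s) : ℂ)) +
      sgb b * ∫ s, bM' w w' s * (V (t - s) : ℂ)) := by
    rw [PB.cV_real, ← integral_const_mul (sgb b), ← integral_add i1 (i2.const_mul _), ← integral_const_mul]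
    refine integral_congr_ae (Eventually.of_forall fun s => ?_)
    simp only
    rw [hd, be'_real h]
    ring
  have e2 : PB.cG (fun z => be w w' b z - be w w' (!b) z) t =
      sgb b * ∫ s, bM w w' s * (Pool.Agent.PB.Kg (t - s) : ℂ) := by
    rw [PB.cG_real, ← integral_const_mul]
    refine integral_congr_ae (Eventually.of_forall fun s => ?_)
    simp only
    rw [be_real h, be_real h, sgb_not]
    ring
  unfold PB.rsp AP AM
  rw [e1, e2]
  ring

/-! ### limits -/

lemma AP_lim (h : Geo w w') : Tendsto (AP w w') (cocompact ℝ) (𝓝 0) := convP_lim h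

theorem AP_eq (h : Geo w w') {D : ℝ → ℂ} (hD : ∀ t : ℝ, HasDerivAt D (dP w w' t) t)
    (hl : Tendsto D atTop (𝓝 0)) (t : ℝ) : AP w w' t = D t := by
  have h1 : ∀ s, AP w w' s - D s = AP w w' t - D t := fun s => diff_const (convP h) hD s t
  have h2 := ((AP_lim h).mono_left atTop_le_cocompact).sub hl
  have h3 : Tendsto (fun s => AP w w' s - D s) atTop (𝓝 (AP w w' t - D t)) := by
    simp_rw [h1]
    exact tendsto_const_nhds
  have h4 := tendsto_nhds_unique h2 h3
  rw [sub_zero] at h4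
  exact sub_eq_zero.1 h4.symm

/-! ### the strip -/

lemma dec_be (h : G5 w w') (b : Bool) : Dec (be w w' b) where
  d t ht := (be_hd h b ht).differentiableAt
  b y1 y2 h1 h2 := ⟨Cst y1 y2 * Real.exp (8 / 3 * MM w w'), fun t ht1 ht2 => by
    have := be_le h b h1 h2 ht1 ht2
    rwa [exp_split, ← mul_assoc] at this⟩

lemma dec_dbe (h : G5 w w') (b : Bool) : Dec (deriv (be w w' b)) where
  d t ht := by
    have h1 : DifferentiableOn ℂ (be w w' b) St := fun t ht =>
      (be_hd h b ht).differentiableAt.differentiableWithinAt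
    exact ((h1.analyticOnNhd St_open).deriv t ht).differentiableAt
  b y1 y2 h1 h2 := ⟨Cst y1 y2 * Real.exp (8 / 3 * MM w w'), fun t ht1 ht2 => by
    have := be'_le h b h1 h2 ht1 ht2
    rw [exp_split, ← mul_assoc] at this
    rwa [deriv_be h b ⟨by linarith, by linarith⟩]⟩

/-- **the field of the two species solves `rsp β = Δ`** in the strip `-l/4 < Im t < 11l/4` -/
theorem rsp_be (h : G5 w w') {Del : Bool → ℂ → ℂ}
    (hD : ∀ b, ∀ t ∈ St, HasDerivAt (Del b) (1 / 2 * (dP w w' t + sgb b * dM w w' t)) t)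
    (h1 : Tendsto (fun t : ℝ => Del true t + Del false t) atTop (𝓝 0))
    (h2 : Tendsto (fun t : ℝ => (Del true t - Del false t) +
      (Del true ((-t : ℝ) : ℂ) - Del false ((-t : ℝ) : ℂ))) atTop (𝓝 0))
    (b : Bool) {t : ℂ} (ht : t ∈ St) : PB.rsp (be w w') b t = Del b t := by
  have hg := h.geo
  have hr : ∀ s : ℝ, PB.rsp (be w w') b s = Del b s := by
    intro s
    have d1 : ∀ t : ℝ, HasDerivAt (fun t : ℝ => Del true t + Del false t) (dP w w' t) t := by
      intro t
      have k1 := ((hD true t (real_St t)).add (hD false t (real_St t))).comp_ofReal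
      refine k1.congr_deriv ?_
      rw [sgb_true, sgb_false]
      ring
    have d2 : ∀ t : ℝ, HasDerivAt (fun t : ℝ => Del true t - Del false t) (dM w w' t) t := by
      intro t
      have k1 := ((hD true t (real_St t)).sub (hD false t (real_St t))).comp_ofReal
      refine k1.congr_deriv ?_
      rw [sgb_true, sgb_false]
      ring
    have e1 := AP_eq hg d1 h1 s
    have e2 := AM_eq hg d2 h2 s
    rw [rsp_real hg b s fun u => deriv_be h b (real_St u), e1, e2]
    cases b
    · rw [sgb_false]; ring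
    · rw [sgb_true]; ring
  have a1 : AnalyticOnNhd ℂ (PB.rsp (be w w') b) St :=
    DifferentiableOn.analyticOnNhd (fun z hz => (rsp_hol b (dec_dbe h b)
      ((dec_be h b).sub (dec_be h (!b))) hz).differentiableWithinAt) St_open
  have a2 : AnalyticOnNhd ℂ (Del b) St :=
    DifferentiableOn.analyticOnNhd (fun z hz => (hD b z hz).differentiableAt.differentiableWithinAt) St_open
  have h0 : ((0 : ℝ) : ℂ) ∈ St := real_St 0
  have hfr : ∃ᶠ z in 𝓝[≠] ((0 : ℝ) : ℂ), PB.rsp (be w w') b z = Del b z := by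
    have t1 : Tendsto (fun x : ℝ => (x : ℂ)) (𝓝[≠] 0) (𝓝[≠] ((0 : ℝ) : ℂ)) := by
      refine tendsto_nhdsWithin_iff.2 ⟨?_, ?_⟩
      · exact (Complex.continuous_ofReal.tendsto 0).mono_left nhdsWithin_le_nhds
      · filter_upwards [self_mem_nhdsWithin] with x hx
        simpa using hx
    exact t1.frequently (Eventually.frequently (Eventually.of_forall hr))
  exact a1.eqOn_of_preconnected_of_frequently_eq a2 St_preconn h0 hfr ht

/-! ### limits at infinity, the mass of the minus field -/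

lemma int_be_sub (h : Geo w w') (b : Bool) :
    ∫ t : ℝ, (be w w' b t - be w w' (!b) t) = sgb b * ∫ t, bM w w' t := by
  rw [← integral_const_mul]
  refine integral_congr_ae (Eventually.of_forall fun t => ?_)
  simp only
  rw [be_real h, be_real h, sgb_not]
  ring

theorem rsp_top (h : G5 w w') (b : Bool) :
    Tendsto (fun t : ℝ => PB.rsp (be w w') b t) atTop (𝓝 (2 * ∫ t : ℝ, (be w w' b t - be w w' (!b) t))) := by
  have hg := h.geo
  have e : (fun t : ℝ => PB.rsp (be w w') b t) = fun t : ℝ => 1 / 2 * (AP w w' t + sgb b * AM w w' t) :=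
    funext fun t => rsp_real hg b t fun u => deriv_be h b (real_St u)
  rw [e, int_be_sub hg]
  have h1 := (((AP_lim hg).mono_left atTop_le_cocompact).add ((AM_top hg).const_mul (sgb b))).const_mul (1 / 2)
  convert h1 using 2
  ring

theorem rsp_bot (h : G5 w w') (b : Bool) :
    Tendsto (fun t : ℝ => PB.rsp (be w w') b t) atBot (𝓝 (-(2 * ∫ t : ℝ, (be w w' b t - be w w' (!b) t)))) := by
  have hg := h.geo
  have e : (fun t : ℝ => PB.rsp (be w w') b t) = fun t : ℝ => 1 / 2 * (AP w w' t + sgb b * AM w w' t) :=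
    funext fun t => rsp_real hg b t fun u => deriv_be h b (real_St u)
  rw [e, int_be_sub hg]
  have h1 := (((AP_lim hg).mono_left atBot_le_cocompact).add ((AM_bot hg).const_mul (sgb b))).const_mul (1 / 2)
  convert h1 using 2
  ring

/-! ### `p` and `q` as sums over the species -/

lemma be_int (h : Geo w w') (b : Bool) : Integrable fun t : ℝ => be w w' b t := by
  have h1 := ((bP_int h).add ((bM_int h).const_mul (sgb b))).const_mul (1 / 2 : ℂ)
  exact h1.congr (Eventually.of_forall fun t => (be_real h b t).symm)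

lemma mul_dP_int (h : Geo w w') {f : ℝ → ℂ} (hf : Integrable f) : Integrable fun t : ℝ => f t * dP w w' t := by
  refine (mul_ift_int hf ((dPs_int h).const_mul (Complex.I * Real.pi))).congr
    (Eventually.of_forall fun t => ?_)
  simp only
  rw [(dPs_IF h t).2]

theorem pI_sum (h : Geo w w') : pI w w' = ∑ b, ∫ t : ℝ, be w w' b t * eT (zz w w') t := by
  have i1 := mul_eT_int h (be_int h true)
  have i2 := mul_eT_int h (be_int h false)
  rw [Fintype.sum_bool, ← integral_add i1 i2]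
  unfold pI
  refine integral_congr_ae (Eventually.of_forall fun t => ?_)
  simp only
  rw [be_real h, be_real h, sgb_true, sgb_false]
  ring

theorem qI_sum (h : Geo w w') :
    qI w w' = ∑ b, ∫ t : ℝ, be w w' b t * (1 / 2 * (dP w w' t + sgb b * dM w w' t)) := by
  have j1 := mul_dP_int h (bP_int h)
  have j2 := mul_dM_int h (bM_int h)
  have i1 : ∀ b, Integrable fun t : ℝ => be w w' b t * (1 / 2 * (dP w w' t + sgb b * dM w w' t)) := by
    intro b
    refine (((mul_dP_int h (be_int h b)).add ((mul_dM_int h (be_int h b)).const_mul (sgb b))).const_mul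
      (1 / 2)).congr (Eventually.of_forall fun t => ?_)
    simp only [Pi.add_apply]
    ring
  rw [Fintype.sum_bool, ← integral_add (i1 true) (i1 false)]
  unfold qI
  rw [← integral_add j1 j2, ← integral_const_mul]
  refine integral_congr_ae (Eventually.of_forall fun t => ?_)
  simp only
  rw [be_real h, be_real h, sgb_true, sgb_false]
  ring

end

end PBT3E
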